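import Mathlib

/-!
# Matroid polytopes and their matroid subdivisions
-/

set_option autoImplicit false
set_option linter.unusedSectionVars false

namespace Pool.Agent.Q295.PGI

open Finset

variable {E : Type} [DecidableEq E]

/-- The incidence vector of a set. -/
def vec (B : Finset E) : E → ℝ := fun e => if e ∈ B then 1 else 0

/-- The matroid polytope: the convex hull of the incidence vectors of the bases. -/
def polytope (N : Matroid E) : Set (E → ℝ) :=
  convexHull ℝ {x | ∃ B : Finset E, N.IsBase (B : Set E) ∧ x = vec B}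

/-- `C` is the set of cells (all cells or the maximal cells) of a matroid subdivision of the matroid
polytope of `M`: finitely many matroids on the ground set of `M` whose bases are bases of `M`; their
polytopes cover the polytope of `M` and the intersection of any two of them is a face of both. -/
structure IsMatroidSubdivision (M : Matroid E) (C : Set (Matroid E)) : Prop where
  finite : C.Finite
  ground : ∀ N ∈ C, N.E = M.E
  bases : ∀ N ∈ C, ∀ B, N.IsBase B → M.IsBase B
  cover : (⋃ N ∈ C, polytope N) = polytope M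
  face : ∀ N ∈ C, ∀ N' ∈ C, IsExtreme ℝ (polytope N) (polytope N ∩ polytope N')

/-- a representation of a point as a convex combination of incidence vectors of bases -/
structure Rep (N : Matroid E) (x : E → ℝ) (ι : Type) [Fintype ι] (w : ι → ℝ) (B : ι → Finset E) :
    Prop where
  nonneg : ∀ i, 0 ≤ w i
  sum : ∑ i, w i = 1
  base : ∀ i, N.IsBase (B i : Set E)
  val : ∀ e, ∑ i, w i * vec (B i) e = x e

theorem exists_rep {N : Matroid E} {x : E → ℝ} (hx : x ∈ polytope N) :
    ∃ (ι : Type) (_ : Fintype ι) (w : ι → ℝ) (B : ι → Finset E), Rep N x ι w B := by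
  classical
  obtain ⟨ι, _, w, z, h0, h1, hz, hx⟩ := mem_convexHull_iff_exists_fintype.1 hx
  choose B hB hzB using hz
  refine ⟨ι, inferInstance, w, B, h0, h1, hB, ?_⟩
  intro e
  rw [← hx, Finset.sum_apply]
  refine Finset.sum_congr rfl fun i _ => ?_
  rw [hzB i]
  rfl

theorem Rep.mem {N : Matroid E} {x : E → ℝ} {ι : Type} [Fintype ι] {w : ι → ℝ} {B : ι → Finset E}
    (R : Rep N x ι w B) : x ∈ polytope N := by
  refine mem_convexHull_of_exists_fintype w (fun i => vec (B i)) R.nonneg R.sum
    (fun i => ⟨B i, R.base i, rfl⟩) ?_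
  funext e
  rw [Finset.sum_apply, ← R.val e]
  rfl

theorem vec_mem {N : Matroid E} {B : Finset E} (h : N.IsBase (B : Set E)) : vec B ∈ polytope N :=
  subset_convexHull ℝ _ ⟨B, h, rfl⟩

theorem convex_polytope (N : Matroid E) : Convex ℝ (polytope N) := convex_convexHull ℝ _

section rep

variable {N : Matroid E} {x : E → ℝ} {ι : Type} [Fintype ι] {w : ι → ℝ} {B : ι → Finset E}

theorem Rep.one (R : Rep N x ι w B) {e : E} (he : x e = 1) (i : ι) (hi : 0 < w i) : e ∈ B i := by
  by_contra hne
  have h1 : ∑ j, w j * (1 - vec (B j) e) = 0 := by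
    simp only [mul_sub, mul_one, Finset.sum_sub_distrib, R.sum, R.val, he, sub_self]
  have h2 : ∀ j ∈ (univ : Finset ι), 0 ≤ w j * (1 - vec (B j) e) := by
    intro j _
    refine mul_nonneg (R.nonneg j) ?_
    unfold vec
    split_ifs <;> norm_num
  have h3 := (Finset.sum_eq_zero_iff_of_nonneg h2).1 h1 i (mem_univ i)
  simp only [vec, hne, if_false, sub_zero, mul_one] at h3
  exact absurd h3 hi.ne'

theorem Rep.zero (R : Rep N x ι w B) {e : E} (he : x e = 0) (i : ι) (hi : 0 < w i) :
    e ∉ B i := by
  intro hne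
  have h2 : ∀ j ∈ (univ : Finset ι), 0 ≤ w j * vec (B j) e := by
    intro j _
    refine mul_nonneg (R.nonneg j) ?_
    unfold vec
    split_ifs <;> norm_num
  have h3 := (Finset.sum_eq_zero_iff_of_nonneg h2).1 ((R.val e).trans he) i (mem_univ i)
  simp only [vec, hne, if_true, mul_one] at h3
  exact absurd h3 hi.ne'

theorem Rep.pos (R : Rep N x ι w B) {e : E} (he : 0 < x e) : ∃ i, 0 < w i ∧ e ∈ B i := by
  by_contra h
  push Not at h
  have : x e ≤ 0 := by
    rw [← R.val e]
    refine Finset.sum_nonpos fun i _ => ?_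
    rcases (R.nonneg i).eq_or_lt with h0 | h0
    · rw [← h0, zero_mul]
    · simp [vec, h i h0]
  linarith

theorem Rep.exists_pos (R : Rep N x ι w B) : ∃ i, 0 < w i := by
  by_contra h
  push Not at h
  have h1 : ∑ i, w i ≤ 0 := Finset.sum_nonpos fun i _ => h i
  rw [R.sum] at h1
  linarith

theorem Rep.sum_set (R : Rep N x ι w B) (P : Finset E) :
    ∑ e ∈ P, x e = ∑ i, w i * ((B i ∩ P).card : ℝ) := by
  calc ∑ e ∈ P, x e = ∑ e ∈ P, ∑ i, w i * vec (B i) e :=
        Finset.sum_congr rfl fun e _ => (R.val e).symm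
    _ = ∑ i, ∑ e ∈ P, w i * vec (B i) e := Finset.sum_comm
    _ = ∑ i, w i * ((B i ∩ P).card : ℝ) := by
        refine Finset.sum_congr rfl fun i _ => ?_
        rw [← Finset.mul_sum]
        congr 1
        simp only [vec]
        rw [← Finset.sum_filter, Finset.sum_const, nsmul_eq_mul, mul_one, Finset.inter_comm,
          Finset.filter_mem_eq_inter]

end rep

/-- vertices of matroid polytopes are bases -/
theorem base_of_vec_mem {N : Matroid E} {B : Finset E} (h : vec B ∈ polytope N) :
    N.IsBase (B : Set E) := by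
  obtain ⟨ι, _, w, A, R⟩ := exists_rep h
  obtain ⟨i, hi⟩ := R.exists_pos
  have : A i = B := by
    ext e
    by_cases he : e ∈ B
    · exact ⟨fun _ => he, fun _ => R.one (by simp [vec, he]) i hi⟩
    · exact ⟨fun h => absurd h (R.zero (by simp [vec, he]) i hi), fun h => absurd h he⟩
  rw [← this]
  exact R.base i

/-- the midpoint of two vertices -/
noncomputable def mid (B B' : Finset E) : E → ℝ := fun e => (vec B e + vec B' e) / 2

theorem mid_mem_openSegment (B B' : Finset E) : mid B B' ∈ openSegment ℝ (vec B) (vec B') := by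
  refine ⟨1 / 2, 1 / 2, by norm_num, by norm_num, by norm_num, ?_⟩
  funext e
  simp only [mid, Pi.add_apply, Pi.smul_apply, smul_eq_mul]
  ring

theorem mid_mem {N : Matroid E} {B B' : Finset E} (h : N.IsBase (B : Set E))
    (h' : N.IsBase (B' : Set E)) : mid B B' ∈ polytope N :=
  (convex_polytope N).segment_subset (vec_mem h) (vec_mem h')
    (openSegment_subset_segment _ _ _ (mid_mem_openSegment B B'))

/-- In a subdivision: if a midpoint of two vertices of a cell `N` lies in the cell `N'`, then the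
vertices do. -/
theorem face_mid {M : Matroid E} {C : Set (Matroid E)} (hC : IsMatroidSubdivision M C)
    {N N' : Matroid E} (hN : N ∈ C) (hN' : N' ∈ C) {B B' : Finset E} (h : N.IsBase (B : Set E))
    (h' : N.IsBase (B' : Set E)) (hm : mid B B' ∈ polytope N') :
    N'.IsBase (B : Set E) ∧ N'.IsBase (B' : Set E) := by
  have hF := hC.face N hN N' hN'
  have h1 : mid B B' ∈ polytope N ∩ polytope N' := ⟨mid_mem h h', hm⟩
  refine ⟨base_of_vec_mem (hF.left_mem_of_mem_openSegment (vec_mem h) (vec_mem h') h1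
    (mid_mem_openSegment B B')).2, base_of_vec_mem (hF.left_mem_of_mem_openSegment (vec_mem h')
    (vec_mem h) h1 ?_).2⟩
  rw [openSegment_symm]
  exact mid_mem_openSegment B B'

/-! ### exchange -/

theorem exch {N : Matroid E} {B B' : Finset E} (h : N.IsBase (B : Set E))
    (h' : N.IsBase (B' : Set E)) {e : E} (he : e ∈ B) (he' : e ∉ B') :
    ∃ f, f ∈ B' ∧ f ∉ B ∧ N.IsBase ((insert f (B.erase e) : Finset E) : Set E) := by
  obtain ⟨f, hf, hb⟩ := h.exchange h' (e := e) ⟨by exact_mod_cast he, by exact_mod_cast he'⟩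
  refine ⟨f, by exact_mod_cast hf.1, by exact_mod_cast hf.2, ?_⟩
  convert hb using 1
  push_cast
  rfl

theorem card_eq {N : Matroid E} {B B' : Finset E} (h : N.IsBase (B : Set E))
    (h' : N.IsBase (B' : Set E)) : B.card = B'.card := by
  have := h.encard_eq_encard_of_isBase h'
  simpa using this

theorem ext_base {N : Matroid E} {B I : Finset E} (h' : N.IsBase (B : Set E)) (hI : I ⊆ B) {e : E}
    (he' : e ∉ B) (hi : N.Indep ((insert e I : Finset E) : Set E)) :
    ∃ f, f ∈ B ∧ f ∉ I ∧ N.IsBase ((insert e (B.erase f) : Finset E) : Set E) := by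
  obtain ⟨A, hA, h1, h2⟩ := hi.exists_isBase_subset_union_isBase h'
  have hfin : A.Finite := by
    refine Set.Finite.subset ?_ h2
    exact (Finset.finite_toSet _).union (Finset.finite_toSet _)
  obtain ⟨A, rfl⟩ := hfin.exists_finset_coe
  have h1' : insert e I ⊆ A := by exact_mod_cast h1
  have h2' : A ⊆ insert e B := by
    have : A ⊆ insert e I ∪ B := by exact_mod_cast h2
    refine this.trans ?_
    intro z hz
    simp only [Finset.mem_union, Finset.mem_insert] at hz ⊢
    rcases hz with (h | h) | h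
    · exact Or.inl h
    · exact Or.inr (hI h)
    · exact Or.inr h
  have heA : e ∈ A := h1' (Finset.mem_insert_self _ _)
  have hc := card_eq hA h'
  have hc2 : (insert e B).card = B.card + 1 := Finset.card_insert_of_notMem he'
  have hd : ((insert e B) \ A).card = 1 := by
    rw [Finset.card_sdiff_of_subset h2', hc2, hc]
    omega
  obtain ⟨f, hf⟩ := Finset.card_eq_one.1 hd
  have hf1 : f ∈ (insert e B) \ A := by rw [hf]; simp
  rw [Finset.mem_sdiff, Finset.mem_insert] at hf1
  have hfe : f ≠ e := fun h => hf1.2 (h ▸ heA)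
  have hfB' : f ∈ B := hf1.1.resolve_left hfe
  refine ⟨f, hfB', fun hfB => hf1.2 (h1' (by simp [hfB])), ?_⟩
  have hAe : A = insert e (B.erase f) := by
    ext z
    constructor
    · intro hz
      have := h2' hz
      rw [Finset.mem_insert] at this ⊢
      rcases this with h3 | h3
      · exact Or.inl h3
      · exact Or.inr (Finset.mem_erase.2 ⟨fun h4 => hf1.2 (h4 ▸ hz), h3⟩)
    · intro hz
      by_contra hzA
      have hz2 : z ∈ (insert e B) \ A := by
        rw [Finset.mem_sdiff]
        refine ⟨?_, hzA⟩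
        rw [Finset.mem_insert] at hz ⊢
        rcases hz with h3 | h3
        · exact Or.inl h3
        · exact Or.inr (Finset.mem_of_mem_erase h3)
      rw [hf, Finset.mem_singleton] at hz2
      subst hz2
      rw [Finset.mem_insert] at hz
      rcases hz with h3 | h3
      · exact hfe h3
      · exact (Finset.mem_erase.1 h3).1 rfl
  rw [← hAe]
  exact hA

theorem rexch {N : Matroid E} {B B' : Finset E} (h : N.IsBase (B : Set E))
    (h' : N.IsBase (B' : Set E)) {e : E} (he : e ∈ B) (he' : e ∉ B') :
    ∃ f, f ∈ B' ∧ f ∉ B ∧ N.IsBase ((insert e (B'.erase f) : Finset E) : Set E) := by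
  have hi : N.Indep ((insert e (B ∩ B') : Finset E) : Set E) := by
    refine h.indep.subset ?_
    have : (insert e (B ∩ B') : Finset E) ⊆ B :=
      Finset.insert_subset he Finset.inter_subset_left
    exact_mod_cast this
  obtain ⟨f, h1, h2, h3⟩ := ext_base h' Finset.inter_subset_right he' hi
  exact ⟨f, h1, fun h4 => h2 (Finset.mem_inter.2 ⟨h4, h1⟩), h3⟩

/-- `S ∪ {u, v}` is a basis and `u`, `v` are different elements outside `S` -/
def rr (N : Matroid E) (S : Finset E) (u v : E) : Prop :=
  u ≠ v ∧ u ∉ S ∧ v ∉ S ∧ N.IsBase ((insert u (insert v S) : Finset E) : Set E)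

theorem rr_symm {N : Matroid E} {S : Finset E} {u v : E} (h : rr N S u v) : rr N S v u := by
  refine ⟨h.1.symm, h.2.2.1, h.2.1, ?_⟩
  rw [Finset.insert_comm]
  exact h.2.2.2

/-- negative transitivity -/
theorem rr_nt {N : Matroid E} {S : Finset E} {u v z : E} (h : rr N S u v) (w : E)
    (hw : rr N S w z) : rr N S u w ∨ rr N S v w := by
  by_cases h1 : w = u
  · subst h1
    exact Or.inr (rr_symm h)
  by_cases h2 : w = v
  · subst h2
    exact Or.inl h
  obtain ⟨f, hf, hf', hb⟩ := rexch hw.2.2.2 h.2.2.2 (e := w) (by simp)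
    (by simp only [Finset.mem_insert, not_or]; exact ⟨h1, h2, hw.2.1⟩)
  have hfS : f ∉ S := fun h => hf' (by simp [h])
  simp only [Finset.mem_insert, hfS, or_false] at hf
  rcases hf with rfl | rfl
  · right
    refine ⟨Ne.symm h2, h.2.2.1, hw.2.1, ?_⟩
    rw [Finset.erase_insert (by simp only [Finset.mem_insert, not_or]; exact ⟨h.1, hfS⟩)] at hb
    rw [Finset.insert_comm]
    exact hb
  · left
    refine ⟨Ne.symm h1, h.2.1, hw.2.1, ?_⟩
    have hn : f ∉ insert u S := by
      simp only [Finset.mem_insert, not_or]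
      exact ⟨h.1.symm, hfS⟩
    rw [Finset.insert_comm u f, Finset.erase_insert hn] at hb
    rw [Finset.insert_comm]
    exact hb

/-! ### points of a cell with prescribed ones -/

section ones

variable {N : Matroid E} {S : Finset E} {x : E → ℝ}

theorem exists_pair {B : Finset E} (hS : S ⊆ B) (hc : B.card = S.card + 2) :
    ∃ u v, u ≠ v ∧ u ∉ S ∧ v ∉ S ∧ B = insert u (insert v S) := by
  have h1 : (B \ S).card = 2 := by
    rw [Finset.card_sdiff_of_subset hS]
    omega
  obtain ⟨u, v, huv, h2⟩ := Finset.card_eq_two.1 h1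
  have hu : u ∈ B \ S := by rw [h2]; simp
  have hv : v ∈ B \ S := by rw [h2]; simp
  rw [Finset.mem_sdiff] at hu hv
  refine ⟨u, v, huv, hu.2, hv.2, ?_⟩
  rw [← Finset.sdiff_union_of_subset hS, h2]
  ext z
  simp only [Finset.mem_union, Finset.mem_insert, Finset.mem_singleton]
  tauto

theorem rr_of_mem {B : Finset E} (hB : N.IsBase (B : Set E)) (hS : S ⊆ B)
    (hc : B.card = S.card + 2) {u v : E} (huv : u ≠ v) (hu : u ∈ B) (hv : v ∈ B) (huS : u ∉ S)
    (hvS : v ∉ S) : rr N S u v := by
  refine ⟨huv, huS, hvS, ?_⟩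
  have : insert u (insert v S) = B := by
    refine Finset.eq_of_subset_of_card_le ?_ ?_
    · exact Finset.insert_subset hu (Finset.insert_subset hv hS)
    · rw [hc, Finset.card_insert_of_notMem, Finset.card_insert_of_notMem hvS]
      simp only [Finset.mem_insert, not_or]
      exact ⟨huv, huS⟩
  rw [this]
  exact hB

variable (hr : ∀ B : Finset E, N.IsBase (B : Set E) → B.card = S.card + 2)
  (hx : x ∈ polytope N) (h1 : ∀ e ∈ S, x e = 1)

include hr hx h1

/-- elements of positive weight are no loops -/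
theorem nonloop {u : E} (hu : u ∉ S) (hxu : 0 < x u) : ∃ z, rr N S u z := by
  obtain ⟨ι, _, w, B, R⟩ := exists_rep hx
  obtain ⟨i, hi, hui⟩ := R.pos hxu
  have hS : S ⊆ B i := fun e he => R.one (h1 e he) i hi
  obtain ⟨a, b, hab, ha, hb, hB⟩ := exists_pair hS (hr _ (R.base i))
  have hmem : u = a ∨ u = b := by
    rw [hB, Finset.mem_insert, Finset.mem_insert] at hui
    tauto
  have hbase := R.base i
  rw [hB] at hbase
  rcases hmem with rfl | rfl
  · exact ⟨b, hab, ha, hb, hbase⟩
  · exact ⟨a, rr_symm ⟨hab, ha, hb, hbase⟩⟩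

/-- parallel classes have weight at most one -/
theorem weight_le {P : Finset E} (hP : ∀ u ∈ P, u ∉ S) (hpar : ∀ u ∈ P, ∀ v ∈ P, ¬ rr N S u v) :
    ∑ u ∈ P, x u ≤ 1 := by
  obtain ⟨ι, _, w, B, R⟩ := exists_rep hx
  rw [R.sum_set P, ← R.sum]
  refine Finset.sum_le_sum fun i _ => ?_
  rcases (R.nonneg i).eq_or_lt with h0 | h0
  · rw [← h0, zero_mul]
  have hS : S ⊆ B i := fun e he => R.one (h1 e he) i h0
  have hle : (B i ∩ P).card ≤ 1 := by
    rw [Finset.card_le_one]
    intro a ha b hb
    rw [Finset.mem_inter] at ha hb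
    by_contra hab
    exact hpar a ha.2 b hb.2 (rr_of_mem (R.base i) hS (hr _ (R.base i)) hab ha.1 hb.1
      (hP a ha.2) (hP b hb.2))
  have : ((B i ∩ P).card : ℝ) ≤ 1 := by exact_mod_cast hle
  nlinarith

end ones

end Pool.Agent.Q295.PGI
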