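import Pool.Agent.Q295.PGI.Tr

/-!
# Representations of a point of a matroid polytope with minimal weight
-/

set_option autoImplicit false
set_option linter.unusedSectionVars false

namespace Pool.Agent.Q295.PGI

open Finset

variable {E : Type} [DecidableEq E] [Fintype E]

/-- weights on the bases representing a point -/
structure WRep (N : Matroid E) (x : E → ℝ) (w : Finset E → ℝ) : Prop where
  nonneg : ∀ B, 0 ≤ w B
  supp : ∀ B : Finset E, ¬ N.IsBase (B : Set E) → w B = 0
  sum : ∑ B, w B = 1
  val : ∀ e, ∑ B, w B * vec B e = x e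

theorem exists_wrep {N : Matroid E} {x : E → ℝ} (hx : x ∈ polytope N) : ∃ w, WRep N x w := by
  classical
  obtain ⟨ι, _, v, A, R⟩ := exists_rep hx
  refine ⟨fun B => ∑ i ∈ univ.filter (fun i => A i = B), v i, ?_, ?_, ?_, ?_⟩
  · intro B
    exact Finset.sum_nonneg fun i _ => R.nonneg i
  · intro B hB
    refine Finset.sum_eq_zero fun i hi => ?_
    rw [Finset.mem_filter] at hi
    exact absurd (hi.2 ▸ R.base i) hB
  · rw [Finset.sum_fiberwise]
    exact R.sum
  · intro e
    rw [← R.val e, ← Finset.sum_fiberwise univ A (fun i => v i * vec (A i) e)]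
    refine Finset.sum_congr rfl fun B _ => ?_
    rw [Finset.sum_mul]
    refine Finset.sum_congr rfl fun i hi => ?_
    rw [Finset.mem_filter] at hi
    rw [hi.2]

/-- a point with weights on bases of `N'` lies in the polytope of `N'` -/
theorem WRep.mem {N N' : Matroid E} {x : E → ℝ} {w : Finset E → ℝ} (R : WRep N x w)
    (h : ∀ B : Finset E, 0 < w B → N'.IsBase (B : Set E)) : x ∈ polytope N' := by
  classical
  have h1 : x = ∑ B ∈ univ.filter (fun B => 0 < w B), w B • vec B := by
    funext e
    rw [Finset.sum_apply, ← R.val e]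
    refine (Finset.sum_subset (Finset.filter_subset _ _) ?_).symm
    intro B _ hB
    rw [Finset.mem_filter] at hB
    have : w B = 0 := le_antisymm (not_lt.1 fun h => hB ⟨mem_univ _, h⟩) (R.nonneg B)
    simp [this]
  rw [h1]
  refine (convex_polytope N').sum_mem (fun B _ => R.nonneg B) ?_ ?_
  · rw [← R.sum]
    refine Finset.sum_subset (Finset.filter_subset _ _) ?_
    intro B _ hB
    rw [Finset.mem_filter] at hB
    exact le_antisymm (not_lt.1 fun h => hB ⟨mem_univ _, h⟩) (R.nonneg B)
  · intro B hB
    rw [Finset.mem_filter] at hB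
    exact vec_mem (h B hB.2)

/-- There is a representation which cannot be improved by an exchange. -/
theorem exists_min {N : Matroid E} {x : E → ℝ} (hx : x ∈ polytope N) (rho : Finset E → ℝ) :
    ∃ w, WRep N x w ∧ ∀ B1 B2 B3 B4 : Finset E, 0 < w B1 → 0 < w B2 →
      N.IsBase (B3 : Set E) → N.IsBase (B4 : Set E) →
      (∀ e, vec B1 e + vec B2 e = vec B3 e + vec B4 e) → rho B1 + rho B2 ≤ rho B3 + rho B4 := by
  classical
  set W : Set (Finset E → ℝ) := {w | WRep N x w} with hW
  have hcl : IsClosed W := by
    have : W = {w | ∀ B, 0 ≤ w B} ∩ {w | ∀ B : Finset E, ¬ N.IsBase (B : Set E) → w B = 0} ∩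
        {w | ∑ B, w B = 1} ∩ {w | ∀ e, ∑ B, w B * vec B e = x e} := by
      ext w
      constructor
      · rintro ⟨h1, h2, h3, h4⟩
        exact ⟨⟨⟨h1, h2⟩, h3⟩, h4⟩
      · rintro ⟨⟨⟨h1, h2⟩, h3⟩, h4⟩
        exact ⟨h1, h2, h3, h4⟩
    rw [this]
    refine ((IsClosed.inter ?_ ?_).inter ?_).inter ?_
    · simp only [Set.ofPred_forall]
      exact isClosed_iInter fun B => isClosed_le continuous_const (continuous_apply B)
    · simp only [Set.ofPred_forall]
      exact isClosed_iInter fun B => isClosed_iInter fun _ =>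
        isClosed_eq (continuous_apply B) continuous_const
    · exact isClosed_eq (continuous_finsetSum _ fun B _ => continuous_apply B) continuous_const
    · simp only [Set.ofPred_forall]
      exact isClosed_iInter fun e => isClosed_eq
        (continuous_finsetSum _ fun B _ => (continuous_apply B).mul continuous_const)
        continuous_const
  have hsub : W ⊆ stdSimplex ℝ (Finset E) := fun w hw => ⟨hw.nonneg, hw.sum⟩
  have hcomp : IsCompact W := (isCompact_stdSimplex ℝ (Finset E)).of_isClosed_subset hcl hsub
  obtain ⟨w0, hw0⟩ := exists_wrep hx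
  obtain ⟨w, hw, hmin⟩ := hcomp.exists_isMinOn ⟨w0, hw0⟩
    (f := fun w : Finset E → ℝ => ∑ B, w B * rho B)
    (continuous_finsetSum _ fun B _ => (continuous_apply B).mul continuous_const).continuousOn
  refine ⟨w, hw, ?_⟩
  intro B1 B2 B3 B4 h1 h2 h3 h4 hv
  by_contra hlt
  push Not at hlt
  set ε : ℝ := min (w B1) (w B2) / 2 with hε
  have hε0 : 0 < ε := by positivity
  have hε1 : ε ≤ w B1 / 2 := by
    have := min_le_left (w B1) (w B2)
    linarith
  have hε2 : ε ≤ w B2 / 2 := by
    have := min_le_right (w B1) (w B2)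
    linarith
  set d : Finset E → Finset E → ℝ := fun A B => if B = A then 1 else 0 with hd
  set w' : Finset E → ℝ := fun B => w B + ε * (d B3 B + d B4 B - d B1 B - d B2 B) with hw'
  have hsumd : ∀ (A : Finset E) (g : Finset E → ℝ), ∑ B, d A B * g B = g A := by
    intro A g
    simp [hd]
  have hlin : ∀ g : Finset E → ℝ, ∑ B, w' B * g B =
      ∑ B, w B * g B + ε * (g B3 + g B4 - g B1 - g B2) := by
    intro g
    have : ∀ B, w' B * g B = w B * g B + ε * (d B3 B * g B) + ε * (d B4 B * g B) -
        ε * (d B1 B * g B) - ε * (d B2 B * g B) := by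
      intro B
      simp only [hw']
      ring
    simp only [this, Finset.sum_sub_distrib, Finset.sum_add_distrib, ← Finset.mul_sum, hsumd]
    ring
  have hbase : ∀ B : Finset E, 0 < w B → N.IsBase (B : Set E) := by
    intro B hB
    by_contra hn
    exact hB.ne' (hw.supp B hn)
  have hR : WRep N x w' := by
    refine ⟨?_, ?_, ?_, ?_⟩
    · intro B
      simp only [hw', hd]
      have h5 := hw.nonneg B
      have h6 : 0 ≤ (if B = B3 then (1 : ℝ) else 0) := by split_ifs <;> norm_num
      have h7 : 0 ≤ (if B = B4 then (1 : ℝ) else 0) := by split_ifs <;> norm_num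
      by_cases k1 : B = B1
      · by_cases k2 : B = B2
        · rw [if_pos k1, if_pos k2]
          subst k1
          nlinarith
        · rw [if_pos k1, if_neg k2]
          subst k1
          nlinarith
      · by_cases k2 : B = B2
        · rw [if_neg k1, if_pos k2]
          subst k2
          nlinarith
        · rw [if_neg k1, if_neg k2]
          nlinarith
    · intro B hB
      have g1 : B ≠ B1 := fun h => hB (h ▸ hbase B1 h1)
      have g2 : B ≠ B2 := fun h => hB (h ▸ hbase B2 h2)
      have g3 : B ≠ B3 := fun h => hB (h ▸ h3)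
      have g4 : B ≠ B4 := fun h => hB (h ▸ h4)
      simp [hw', hd, hw.supp B hB, g1, g2, g3, g4]
    · have := hlin (fun _ => 1)
      simp only [mul_one] at this
      rw [this, hw.sum]
      ring
    · intro e
      rw [hlin (fun B => vec B e), hw.val e]
      have := hv e
      have h8 : vec B3 e + vec B4 e - vec B1 e - vec B2 e = 0 := by linarith
      rw [h8]
      ring
  have h9 : ∑ B, w B * rho B ≤ ∑ B, w' B * rho B := isMinOn_iff.1 hmin w' hR
  rw [hlin rho] at h9
  nlinarith

end Pool.Agent.Q295.PGI
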