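import Pool.Agent.Q295.PGI.Triv

/-!
# The matroid of a finite projective space
-/

set_option autoImplicit false
set_option linter.unusedSectionVars false

namespace Pool.Agent.Q295.PGI

open Finset Module
open scoped LinearAlgebra.Projectivization

variable (F V : Type) [Field F] [Finite F] [AddCommGroup V] [Module F V] [FiniteDimensional F V]

/-- The points of the projective space are finitely many. -/
theorem finite_pts : Finite (ℙ F V) := by
  have : Finite V := Module.finite_of_finite F
  infer_instance

variable {F V}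

theorem card_of_indep {s : Set (ℙ F V)} (hs : s.Finite)
    (h : LinearIndepOn F Projectivization.rep s) :
    s.ncard = finrank F (Submodule.span F (Projectivization.rep '' s)) := by
  classical
  have : Fintype s := hs.fintype
  have h1 := finrank_span_eq_card (b := fun x : s => Projectivization.rep (x : ℙ F V)) h
  rw [Set.ncard_eq_toFinset_card', Set.toFinset_card, ← h1, Set.image_eq_range]

variable (F V)

/-- The matroid of the projective space `ℙ(V)`: the ground set is the set of all points, and a set
of points is independent if representative vectors are linearly independent. -/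
noncomputable def PG : Matroid (ℙ F V) :=
  (IndepMatroid.ofFinite (E := Set.univ) (hE := by have := finite_pts F V; exact Set.finite_univ)
    (fun s => LinearIndepOn F Projectivization.rep s)
    (linearIndepOn_empty F _)
    (fun _ _ hJ hIJ => hJ.mono hIJ)
    (by
      intro I J hI hJ hlt
      have := finite_pts F V
      by_contra hcon
      push Not at hcon
      have hspan : ∀ e ∈ J, Projectivization.rep e ∈
          Submodule.span F (Projectivization.rep '' I) := by
        intro e he
        by_cases heI : e ∈ I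
        · exact Submodule.subset_span ⟨e, heI, rfl⟩
        · by_contra hne
          exact hcon e he heI ((linearIndepOn_insert heI).2 ⟨hI, hne⟩)
      have hle : Submodule.span F (Projectivization.rep '' J) ≤
          Submodule.span F (Projectivization.rep '' I) := by
        rw [Submodule.span_le]
        rintro v ⟨e, he, rfl⟩
        exact hspan e he
      have h1 := Submodule.finrank_mono hle
      rw [← card_of_indep (Set.toFinite J) hJ, ← card_of_indep (Set.toFinite I) hI] at h1
      omega)
    (fun _ _ => Set.subset_univ _)).matroid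

variable {F V}

theorem PG_indep (s : Set (ℙ F V)) :
    (PG F V).Indep s ↔ LinearIndepOn F Projectivization.rep s := by
  unfold PG
  rw [IndepMatroid.matroid_indep_iff, IndepMatroid.ofFinite_indep]

/-- the span of a set of points -/
noncomputable def sp (S : Finset (ℙ F V)) : Submodule F V := S.sup (fun p => p.submodule)

theorem sp_eq (S : Finset (ℙ F V)) :
    sp S = Submodule.span F (Projectivization.rep '' (S : Set (ℙ F V))) := by
  classical
  unfold sp
  induction S using Finset.induction_on with
  | empty => simp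
  | insert p S _ ih =>
    rw [Finset.sup_insert, ih, Finset.coe_insert, Set.image_insert_eq, Submodule.span_insert,
      Projectivization.submodule_eq]

theorem sp_insert [DecidableEq (ℙ F V)] (p : ℙ F V) (S : Finset (ℙ F V)) :
    sp (insert p S) = p.submodule ⊔ sp S := by
  unfold sp
  rw [Finset.sup_insert]

theorem finrank_sp_le (S : Finset (ℙ F V)) : finrank F (sp S) ≤ S.card := by
  classical
  induction S using Finset.induction_on with
  | empty =>
    rw [sp_eq]
    simp
  | insert p S hp ih =>
    rw [sp_insert, Finset.card_insert_of_notMem hp]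
    have h1 := Submodule.finrank_add_le_finrank_add_finrank p.submodule (sp S)
    rw [Projectivization.finrank_submodule] at h1
    omega

theorem base_sp {B : Finset (ℙ F V)} (hB : (PG F V).IsBase (B : Set (ℙ F V))) : sp B = ⊤ := by
  rw [Matroid.isBase_iff_maximal_indep] at hB
  have hi := (PG_indep _).1 hB.prop
  rw [eq_top_iff]
  intro v _
  by_cases hv : v = 0
  · rw [hv]
    exact Submodule.zero_mem _
  set e : ℙ F V := Projectivization.mk F v hv with he
  have hmem : e.rep ∈ Submodule.span F (Projectivization.rep '' (B : Set (ℙ F V))) := by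
    by_cases heB : e ∈ (B : Set (ℙ F V))
    · exact Submodule.subset_span ⟨e, heB, rfl⟩
    · by_contra hne
      have h1 := (PG_indep _).2 ((linearIndepOn_insert heB).2 ⟨hi, hne⟩)
      have h2 := hB.le_of_ge h1 (Set.subset_insert _ _)
      exact heB (h2 (Set.mem_insert _ _))
  rw [← sp_eq] at hmem
  have h3 : e.submodule ≤ sp B := by
    rw [Projectivization.submodule_eq, Submodule.span_singleton_le_iff_mem]
    exact hmem
  rw [he, Projectivization.submodule_mk, Submodule.span_singleton_le_iff_mem] at h3
  exact h3

theorem base_card {B : Finset (ℙ F V)} (hB : (PG F V).IsBase (B : Set (ℙ F V))) :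
    B.card = finrank F V := by
  have h1 := card_of_indep (Finset.finite_toSet B) ((PG_indep _).1 hB.indep)
  rw [← sp_eq, base_sp hB, finrank_top, Set.ncard_coe_finset] at h1
  exact h1

theorem base_of {B : Finset (ℙ F V)} (h1 : sp B = ⊤) (h2 : B.card = finrank F V) :
    (PG F V).IsBase (B : Set (ℙ F V)) := by
  classical
  have := finite_pts F V
  have hi : (PG F V).Indep (B : Set (ℙ F V)) := by
    rw [PG_indep]
    have : LinearIndependent F (fun x : B => Projectivization.rep (x : ℙ F V)) := by
      refine linearIndependent_of_top_le_span_of_card_eq_finrank ?_ (by rw [Fintype.card_coe, h2])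
      rw [← h1, sp_eq]
      refine Submodule.span_mono ?_
      rintro v ⟨e, he, rfl⟩
      exact ⟨⟨e, he⟩, rfl⟩
    exact this
  obtain ⟨A, hA, hBA⟩ := hi.exists_isBase_superset
  obtain ⟨A, rfl⟩ := (Set.toFinite A).exists_finset_coe
  have h3 := base_card hA
  have h4 : B = A := Finset.eq_of_subset_of_card_le (by exact_mod_cast hBA) (by omega)
  rw [h4]
  exact hA

variable [DecidableEq (ℙ F V)]

theorem rr_iff {S : Finset (ℙ F V)} (hS : S.card + 2 = finrank F V) (u v : ℙ F V) :
    rr (PG F V) S u v ↔ u.submodule ⊔ (v.submodule ⊔ sp S) = ⊤ := by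
  constructor
  · intro h
    rw [← sp_insert, ← sp_insert]
    exact base_sp h.2.2.2
  · intro h
    rw [← sp_insert, ← sp_insert] at h
    have h1 := finrank_sp_le (insert u (insert v S))
    rw [h, finrank_top] at h1
    have h2 := Finset.card_insert_le u (insert v S)
    have h3 := Finset.card_insert_le v S
    have hv : v ∉ S := by
      intro hv
      rw [Finset.insert_eq_of_mem hv] at h1 h2
      omega
    have hu : u ∉ insert v S := by
      intro hu
      rw [Finset.insert_eq_of_mem hu] at h1
      omega
    refine ⟨fun h => hu (h ▸ Finset.mem_insert_self _ _),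
      fun h => hu (Finset.mem_insert_of_mem h), hv, base_of h ?_⟩
    omega

theorem rr_card {S : Finset (ℙ F V)} {u v : ℙ F V} (h : rr (PG F V) S u v) :
    S.card + 2 = finrank F V := by
  rw [← base_card h.2.2.2, Finset.card_insert_of_notMem, Finset.card_insert_of_notMem h.2.2.1]
  simp only [Finset.mem_insert, not_or]
  exact ⟨h.1, h.2.1⟩

/-- parallel elements -/
theorem not_rr {S : Finset (ℙ F V)} {u v : ℙ F V} (h : u.submodule ≤ v.submodule ⊔ sp S) :
    ¬ rr (PG F V) S u v := by
  intro hr
  have hc := rr_card hr
  rw [rr_iff hc, sup_eq_right.2 h] at hr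
  have h1 := Submodule.finrank_add_le_finrank_add_finrank v.submodule (sp S)
  rw [hr, finrank_top, Projectivization.finrank_submodule] at h1
  have h2 := finrank_sp_le S
  omega

/-- at most two elements of a basis lie in a plane -/
theorem inter_le_two {P : Finset (ℙ F V)} (U : Submodule F V) (hU : finrank F U ≤ 2)
    (hP : ∀ p ∈ P, p.submodule ≤ U) (B : Finset (ℙ F V))
    (hB : (PG F V).IsBase (B : Set (ℙ F V))) : (B ∩ P).card ≤ 2 := by
  have h1 : sp B ≤ U ⊔ sp (B \ P) := by
    unfold sp
    refine Finset.sup_le fun p hp => ?_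
    by_cases hpP : p ∈ P
    · exact (hP p hpP).trans le_sup_left
    · exact le_sup_of_le_right
        (Finset.le_sup (f := fun p : ℙ F V => p.submodule) (Finset.mem_sdiff.2 ⟨hp, hpP⟩))
  rw [base_sp hB, top_le_iff] at h1
  have h2 := Submodule.finrank_add_le_finrank_add_finrank U (sp (B \ P))
  rw [h1, finrank_top, ← base_card hB] at h2
  have h3 := finrank_sp_le (B \ P)
  have h4 := Finset.card_sdiff_add_card_inter B P
  omega

/-! ### coordinates -/

/-- The linear map given by three vectors. -/
noncomputable def lin (e1 e2 e3 : V) : (Fin 3 → F) →ₗ[F] V where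
  toFun c := c 0 • e1 + c 1 • e2 + c 2 • e3
  map_add' c d := by
    simp only [Pi.add_apply, add_smul]
    abel
  map_smul' a c := by
    simp only [Pi.smul_apply, smul_eq_mul, mul_smul, smul_add, RingHom.id_apply]

theorem lin_apply (e1 e2 e3 : V) (c : Fin 3 → F) :
    lin e1 e2 e3 c = c 0 • e1 + c 1 • e2 + c 2 • e3 := rfl

/-- Three vectors which together with the points of `S'` form a basis. -/
structure Frame (S' : Finset (ℙ F V)) (e1 e2 e3 : V) : Prop where
  card : S'.card + 3 = finrank F V
  span : LinearMap.range (lin (F := F) e1 e2 e3) ⊔ sp S' = ⊤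

section frame

variable {S' : Finset (ℙ F V)} {e1 e2 e3 : V} (hF : Frame S' e1 e2 e3)

include hF

theorem Frame.finrank_range : 3 ≤ finrank F (LinearMap.range (lin (F := F) e1 e2 e3)) := by
  have h1 := Submodule.finrank_add_le_finrank_add_finrank
    (LinearMap.range (lin (F := F) e1 e2 e3)) (sp S')
  rw [hF.span, finrank_top, ← hF.card] at h1
  have h2 := finrank_sp_le S'
  omega

theorem Frame.ne_zero {c : Fin 3 → F} (hc : c ≠ 0) : lin e1 e2 e3 c ≠ 0 := by
  have h1 := LinearMap.finrank_range_add_finrank_ker (lin (F := F) e1 e2 e3)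
  rw [Module.finrank_fin_fun] at h1
  have h2 := hF.finrank_range
  have h3 : finrank F (LinearMap.ker (lin (F := F) e1 e2 e3)) = 0 := by omega
  rw [Submodule.finrank_eq_zero] at h3
  intro h
  exact hc (LinearMap.ker_eq_bot'.1 h3 c h)

/-- the point with given coordinates -/
noncomputable def Frame.pnt (c : Fin 3 → F) (hc : c ≠ 0) : ℙ F V :=
  Projectivization.mk F (lin e1 e2 e3 c) (hF.ne_zero hc)

theorem Frame.submodule_pnt (c : Fin 3 → F) (hc : c ≠ 0) :
    (hF.pnt c hc).submodule = (Submodule.span F {c}).map (lin e1 e2 e3) := by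
  unfold Frame.pnt
  rw [Projectivization.submodule_mk, Submodule.map_span, Set.image_singleton]

theorem Frame.sup_pnt (c0 c1 c2 : Fin 3 → F) (h0 : c0 ≠ 0) (h1 : c1 ≠ 0) (h2 : c2 ≠ 0) :
    (hF.pnt c1 h1).submodule ⊔ ((hF.pnt c2 h2).submodule ⊔ ((hF.pnt c0 h0).submodule ⊔ sp S')) =
      (Submodule.span F (Set.range (Matrix.of ![c0, c1, c2]).row)).map (lin e1 e2 e3) ⊔ sp S' := by
  rw [hF.submodule_pnt, hF.submodule_pnt, hF.submodule_pnt]
  have : Set.range (Matrix.of ![c0, c1, c2]).row = {c1} ∪ ({c2} ∪ {c0}) := by
    ext v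
    simp only [Set.mem_range, Fin.exists_fin_succ, Set.mem_union, Set.mem_singleton_iff]
    constructor
    · rintro (h | h | h | ⟨x, -⟩)
      · exact Or.inr (Or.inr h.symm)
      · exact Or.inl h.symm
      · exact Or.inr (Or.inl h.symm)
      · exact x.elim0
    · rintro (h | h | h)
      · exact Or.inr (Or.inl h.symm)
      · exact Or.inr (Or.inr (Or.inl h.symm))
      · exact Or.inl h.symm
  rw [this, Submodule.span_union, Submodule.span_union, Submodule.map_sup, Submodule.map_sup,
    sup_assoc, sup_assoc]

theorem Frame.sup_iff (c0 c1 c2 : Fin 3 → F) (h0 : c0 ≠ 0) (h1 : c1 ≠ 0) (h2 : c2 ≠ 0) :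
    (hF.pnt c1 h1).submodule ⊔ ((hF.pnt c2 h2).submodule ⊔ ((hF.pnt c0 h0).submodule ⊔ sp S')) = ⊤
      ↔ (Matrix.of ![c0, c1, c2]).det ≠ 0 := by
  rw [hF.sup_pnt]
  have hdet : (Matrix.of ![c0, c1, c2]).det ≠ 0 ↔
      Submodule.span F (Set.range (Matrix.of ![c0, c1, c2]).row) = ⊤ := by
    rw [← isUnit_iff_ne_zero, ← Matrix.isUnit_iff_isUnit_det,
      ← Matrix.linearIndependent_rows_iff_isUnit]
    constructor
    · intro h
      exact h.span_eq_top_of_card_eq_finrank (by simp)
    · intro h
      exact linearIndependent_of_top_le_span_of_card_eq_finrank h.ge (by simp)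
  rw [hdet]
  constructor
  · intro h
    by_contra hne
    have h3 := Submodule.finrank_lt hne
    rw [Module.finrank_fin_fun] at h3
    have h4 := Submodule.finrank_add_le_finrank_add_finrank
      ((Submodule.span F (Set.range (Matrix.of ![c0, c1, c2]).row)).map (lin e1 e2 e3)) (sp S')
    rw [h, finrank_top, ← hF.card] at h4
    have h5 := finrank_sp_le S'
    have h6 := Submodule.finrank_map_le (lin e1 e2 e3)
      (Submodule.span F (Set.range (Matrix.of ![c0, c1, c2]).row))
    omega
  · intro h
    rw [h, ← LinearMap.range_eq_map, hF.span]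

theorem Frame.notMem (c : Fin 3 → F) (hc : c ≠ 0) : hF.pnt c hc ∉ S' := by
  intro hmem
  have hle : (hF.pnt c hc).submodule ≤ sp S' :=
    Finset.le_sup (f := fun p : ℙ F V => p.submodule) hmem
  obtain ⟨k, hk⟩ : ∃ k, c k ≠ 0 := by
    by_contra hcon
    push Not at hcon
    exact hc (funext hcon)
  obtain ⟨c1, c2, hdet⟩ : ∃ c1 c2 : Fin 3 → F, (Matrix.of ![c, c1, c2]).det ≠ 0 := by
    fin_cases k
    · refine ⟨![0, 1, 0], ![0, 0, 1], ?_⟩
      rw [Matrix.det_fin_three]
      simpa using hk
    · refine ⟨![1, 0, 0], ![0, 0, 1], ?_⟩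
      rw [Matrix.det_fin_three]
      simpa using hk
    · refine ⟨![1, 0, 0], ![0, 1, 0], ?_⟩
      rw [Matrix.det_fin_three]
      simpa using hk
  have h1 : c1 ≠ 0 := by
    rintro rfl
    apply hdet
    rw [Matrix.det_fin_three]
    simp
  have h2 : c2 ≠ 0 := by
    rintro rfl
    apply hdet
    rw [Matrix.det_fin_three]
    simp
  have h3 := (hF.sup_iff c c1 c2 hc h1 h2).2 hdet
  rw [sup_eq_right.2 hle] at h3
  have h4 := Submodule.finrank_add_le_finrank_add_finrank (hF.pnt c2 h2).submodule (sp S')
  have h5 := Submodule.finrank_add_le_finrank_add_finrank (hF.pnt c1 h1).submodule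
    ((hF.pnt c2 h2).submodule ⊔ sp S')
  rw [h3, finrank_top, ← hF.card] at h5
  rw [Projectivization.finrank_submodule] at h4 h5
  have h6 := finrank_sp_le S'
  omega

theorem Frame.card_insert (c : Fin 3 → F) (hc : c ≠ 0) :
    (insert (hF.pnt c hc) S').card + 2 = finrank F V := by
  rw [Finset.card_insert_of_notMem (hF.notMem c hc), ← hF.card]

/-- bases are detected by a determinant -/
theorem Frame.rr_iff (c0 c1 c2 : Fin 3 → F) (h0 : c0 ≠ 0) (h1 : c1 ≠ 0) (h2 : c2 ≠ 0) :
    rr (PG F V) (insert (hF.pnt c0 h0) S') (hF.pnt c1 h1) (hF.pnt c2 h2) ↔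
      (Matrix.of ![c0, c1, c2]).det ≠ 0 := by
  rw [PGI.rr_iff (hF.card_insert c0 h0), sp_insert, hF.sup_iff]

end frame

end Pool.Agent.Q295.PGI
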