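import Pool.Agent.Q295.PGI.Ref
import Pool.Agent.Results.MP_da28a5_co.Indecomposable

/-!
# The lines of a finite projective plane
-/

set_option autoImplicit false
set_option linter.unusedSectionVars false

namespace Pool.Agent.Q295.PGI

open Finset Module
open scoped LinearAlgebra.Projectivization

variable {F V : Type} [Field F] [Finite F] [AddCommGroup V] [Module F V] [FiniteDimensional F V]
  [DecidableEq (ℙ F V)] [Fintype (ℙ F V)]

theorem finrank_pair {p q : ℙ F V} (h : p ≠ q) : 2 ≤ finrank F ↥(p.submodule ⊔ q.submodule) := by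
  by_contra hlt
  push Not at hlt
  have h1 : p.submodule = p.submodule ⊔ q.submodule :=
    Submodule.eq_of_le_of_finrank_le le_sup_left (by rw [Projectivization.finrank_submodule]; omega)
  have h2 : q.submodule = p.submodule ⊔ q.submodule :=
    Submodule.eq_of_le_of_finrank_le le_sup_right (by rw [Projectivization.finrank_submodule]; omega)
  exact h (Projectivization.submodule_injective (h1.trans h2.symm))

open Classical in
/-- the points of a subspace -/
noncomputable def pts (U : Submodule F V) : Finset (ℙ F V) := univ.filter (fun p => p.submodule ≤ U)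

theorem mem_pts (U : Submodule F V) (p : ℙ F V) : p ∈ pts U ↔ p.submodule ≤ U := by
  simp [pts]

variable (F V) in
/-- the lines of the projective space -/
def lns : Set (Finset (ℙ F V)) := {L | ∃ U : Submodule F V, finrank F U = 2 ∧ L = pts U}

theorem sp_le_iff (B : Finset (ℙ F V)) (U : Submodule F V) : sp B ≤ U ↔ B ⊆ pts U := by
  unfold sp
  rw [Finset.sup_le_iff]
  constructor
  · intro h p hp
    exact (mem_pts U p).2 (h p hp)
  · intro h p hp
    exact (mem_pts U p).1 (h hp)

theorem plane_base (h3 : finrank F V = 3) (B : Finset (ℙ F V)) :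
    (PG F V).IsBase (B : Set (ℙ F V)) ↔ B.card = 3 ∧ ∀ L ∈ lns F V, ¬ B ⊆ L := by
  constructor
  · intro hB
    refine ⟨by rw [base_card hB, h3], ?_⟩
    rintro L ⟨U, hU, rfl⟩ hsub
    have h1 := (sp_le_iff B U).2 hsub
    rw [base_sp hB, top_le_iff] at h1
    rw [h1, finrank_top, h3] at hU
    omega
  · rintro ⟨hB, hL⟩
    refine base_of ?_ (by rw [hB, h3])
    by_contra hne
    have h1 := Submodule.finrank_lt hne
    rw [h3] at h1
    obtain ⟨p, hp, q, hq, hpq⟩ := Finset.one_lt_card.1 (show 1 < B.card by omega)
    have h2 : p.submodule ⊔ q.submodule ≤ sp B :=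
      sup_le (Finset.le_sup (f := fun p : ℙ F V => p.submodule) hp)
        (Finset.le_sup (f := fun p : ℙ F V => p.submodule) hq)
    have h4 := Submodule.finrank_mono h2
    have h5 := finrank_pair hpq
    exact hL (pts (sp B)) ⟨sp B, by omega, rfl⟩ ((sp_le_iff B _).1 le_rfl)

theorem plane_int (L : Finset (ℙ F V)) (hL : L ∈ lns F V) (L' : Finset (ℙ F V))
    (hL' : L' ∈ lns F V) (h : 2 ≤ (L ∩ L').card) : L = L' := by
  obtain ⟨U, hU, rfl⟩ := hL
  obtain ⟨U', hU', rfl⟩ := hL'
  obtain ⟨p, hp, q, hq, hpq⟩ := Finset.one_lt_card.1 (show 1 < (pts U ∩ pts U').card by omega)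
  rw [Finset.mem_inter, mem_pts, mem_pts] at hp hq
  have h5 := finrank_pair hpq
  have h1 : p.submodule ⊔ q.submodule = U :=
    Submodule.eq_of_le_of_finrank_le (sup_le hp.1 hq.1) (by omega)
  have h2 : p.submodule ⊔ q.submodule = U' :=
    Submodule.eq_of_le_of_finrank_le (sup_le hp.2 hq.2) (by omega)
  rw [← h1, ← h2]

theorem card_pts (U : Submodule F V) : (pts U).card = Nat.card (ℙ F U) := by
  classical
  have hinj : Function.Injective (Projectivization.map U.subtype U.injective_subtype) :=
    Projectivization.map_injective U.subtype U.injective_subtype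
  have h1 : (pts U : Set (ℙ F V)) =
      Set.range (Projectivization.map U.subtype U.injective_subtype) := by
    ext p
    rw [Finset.mem_coe, mem_pts]
    constructor
    · intro hp
      have hm : p.rep ∈ U := by
        apply hp
        rw [Projectivization.submodule_eq]
        exact Submodule.mem_span_singleton_self _
      refine ⟨Projectivization.mk F (⟨p.rep, hm⟩ : U) ?_, ?_⟩
      · intro h0
        exact p.rep_nonzero (congrArg Subtype.val h0)
      · rw [Projectivization.map_mk]
        exact p.mk_rep
    · rintro ⟨q, rfl⟩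
      induction q using Projectivization.ind with
      | h v hv =>
        rw [Projectivization.map_mk, Projectivization.submodule_mk,
          Submodule.span_singleton_le_iff_mem]
        exact v.2
  rw [← Set.ncard_coe_finset, h1, ← Nat.card_coe_set_eq, Nat.card_range_of_injective hinj]

theorem card_line (h3 : Nat.card F = 3) (L : Finset (ℙ F V)) (hL : L ∈ lns F V) : L.card = 4 := by
  obtain ⟨U, hU, rfl⟩ := hL
  rw [card_pts, Projectivization.card_of_finrank F U hU]
  simp [h3, Finset.sum_range_succ]

/-- a basis with at most one point on a given line -/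
theorem exists_few (h3 : finrank F V = 3) (L : Finset (ℙ F V)) (hL : L ∈ lns F V) :
    ∃ B : Finset (ℙ F V), (PG F V).IsBase (B : Set (ℙ F V)) ∧ (B ∩ L).card < 2 := by
  classical
  obtain ⟨U, hU, rfl⟩ := hL
  obtain ⟨B0, hB0⟩ : ∃ B : Finset (ℙ F V), (PG F V).IsBase (B : Set (ℙ F V)) := by
    have : Finite (ℙ F V) := inferInstance
    exact exists_base (PG F V)
  by_contra hcon
  push Not at hcon
  have hc0 := base_card hB0
  have h2 := hcon B0 hB0
  obtain ⟨p, hp, q, hq, hpq⟩ := Finset.one_lt_card.1 (show 1 < (B0 ∩ pts U).card by omega)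
  rw [Finset.mem_inter, mem_pts] at hp hq
  have h4 : ∃ j ∈ B0, j ∉ pts U := by
    by_contra hno
    push Not at hno
    have h5 := (sp_le_iff B0 U).2 hno
    rw [base_sp hB0, top_le_iff] at h5
    rw [h5, finrank_top, h3] at hU
    omega
  obtain ⟨j, hj, hjU⟩ := h4
  have hpj : p ≠ j := fun h => hjU (h ▸ (mem_pts U p).2 hp.2)
  have hqj : q ≠ j := fun h => hjU (h ▸ (mem_pts U q).2 hq.2)
  have hB0e : B0 = {p, q, j} := by
    symm
    refine Finset.eq_of_subset_of_card_le ?_ ?_
    · intro z hz
      simp only [Finset.mem_insert, Finset.mem_singleton] at hz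
      rcases hz with rfl | rfl | rfl
      · exact hp.1
      · exact hq.1
      · exact hj
    · rw [hc0, h3, Finset.card_insert_of_notMem (by simp [hpq, hpj]),
        Finset.card_insert_of_notMem (by simp [hqj]), Finset.card_singleton]
  have hprep : p.rep ∈ U := by
    apply hp.2
    rw [Projectivization.submodule_eq]
    exact Submodule.mem_span_singleton_self _
  have hjrep : j.rep ∉ U := by
    intro h
    apply hjU
    rw [mem_pts, Projectivization.submodule_eq, Submodule.span_singleton_le_iff_mem]
    exact h
  have hv : p.rep + j.rep ∉ U := fun h => hjrep ((Submodule.add_mem_iff_right U hprep).1 h)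
  have hv0 : p.rep + j.rep ≠ 0 := fun h => hv (h ▸ U.zero_mem)
  set p' : ℙ F V := Projectivization.mk F (p.rep + j.rep) hv0 with hp'
  have hp'U : p' ∉ pts U := by
    rw [mem_pts, hp', Projectivization.submodule_mk, Submodule.span_singleton_le_iff_mem]
    exact hv
  have hspan : sp ({p', q, j} : Finset (ℙ F V)) = ⊤ := by
    rw [eq_top_iff, ← base_sp hB0, hB0e]
    have e1 : ∀ a b c : ℙ F V, sp ({a, b, c} : Finset (ℙ F V)) =
        a.submodule ⊔ (b.submodule ⊔ c.submodule) := by
      intro a b c
      rw [sp_insert, sp_insert]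
      congr 2
      simp [sp]
    rw [e1, e1]
    refine sup_le ?_ (sup_le ?_ ?_)
    · rw [Projectivization.submodule_eq, Submodule.span_singleton_le_iff_mem]
      have : p.rep = (p.rep + j.rep) + (0 + -j.rep) := by abel
      rw [this]
      refine Submodule.add_mem_sup ?_ (Submodule.add_mem_sup (Submodule.zero_mem _)
        (Submodule.neg_mem _ ?_))
      · rw [hp', Projectivization.submodule_mk]
        exact Submodule.mem_span_singleton_self _
      · rw [Projectivization.submodule_eq]
        exact Submodule.mem_span_singleton_self _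
    · exact le_sup_of_le_right le_sup_left
    · exact le_sup_of_le_right le_sup_right
  have hcard : ({p', q, j} : Finset (ℙ F V)).card = 3 := by
    have h6 := finrank_sp_le ({p', q, j} : Finset (ℙ F V))
    rw [hspan, finrank_top, h3] at h6
    have h7 := Finset.card_le_three (a := p') (b := q) (c := j)
    omega
  have h8 := hcon _ (base_of hspan (by rw [hcard, h3]))
  have h9 : ({p', q, j} : Finset (ℙ F V)) ∩ pts U ⊆ {q} := by
    intro z hz
    rw [Finset.mem_inter] at hz
    simp only [Finset.mem_insert, Finset.mem_singleton] at hz ⊢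
    rcases hz.1 with rfl | rfl | rfl
    · exact absurd hz.2 hp'U
    · rfl
    · exact absurd hz.2 hjU
  have := Finset.card_le_card h9
  rw [Finset.card_singleton] at this
  omega

theorem plane_point (h3 : finrank F V = 3) : ∃ x ∈ polytope (PG F V),
    ∀ L ∈ lns F V, ∑ e ∈ L, x e < 2 := by
  classical
  have hfin : (lns F V).Finite := Set.toFinite _
  obtain ⟨B0, hB0⟩ : ∃ B : Finset (ℙ F V), (PG F V).IsBase (B : Set (ℙ F V)) :=
    exists_base (PG F V)
  obtain ⟨x, hx, hxL⟩ := avoid (polytope (PG F V)) (convex_polytope _) ⟨_, vec_mem hB0⟩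
    (fun L : Finset (ℙ F V) => ∑ e ∈ L, (LinearMap.proj e : ((ℙ F V) → ℝ) →ₗ[ℝ] ℝ))
    (fun _ => (2 : ℝ)) hfin.toFinset (by
      intro L hL
      rw [Set.Finite.mem_toFinset] at hL
      obtain ⟨B, hB, hlt⟩ := exists_few h3 L hL
      refine ⟨vec B, vec_mem hB, ?_⟩
      rw [LinearMap.sum_apply]
      simp only [LinearMap.proj_apply, vec]
      rw [← Finset.sum_filter, Finset.sum_const, nsmul_eq_mul, mul_one,
        Finset.filter_mem_eq_inter, Finset.inter_comm]
      have : ((B ∩ L).card : ℝ) < 2 := by exact_mod_cast hlt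
      exact this.ne)
  refine ⟨x, hx, fun L hL => lt_of_le_of_ne ?_ ?_⟩
  · have := sum_le hx L 2 (by
      intro B hB
      have h1 := (plane_base h3 B).1 hB
      by_contra hcon
      have h2 := Finset.eq_of_subset_of_card_le (Finset.inter_subset_left : B ∩ L ⊆ B) (by omega)
      exact h1.2 L hL (Finset.inter_eq_left.1 h2))
    exact_mod_cast this
  · have := hxL L (by rwa [Set.Finite.mem_toFinset])
    rw [LinearMap.sum_apply] at this
    simpa only [LinearMap.proj_apply] using this

end Pool.Agent.Q295.PGI
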