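import Pool.Agent.Q295.PGI.Tr

/-!
# A matroid subdivision without split octahedra is trivial
-/

set_option autoImplicit false
set_option linter.unusedSectionVars false

namespace Pool.Agent.Q295.PGI

open Finset

/-- finitely many affine functionals, none of them constant equal to `c i` on the convex set -/
theorem avoid {V : Type} [AddCommGroup V] [Module ℝ V] (K : Set V) (hK : Convex ℝ K)
    (hne : K.Nonempty) {ι : Type} [DecidableEq ι] (f : ι → V →ₗ[ℝ] ℝ) (c : ι → ℝ) (s : Finset ι)
    (h : ∀ i ∈ s, ∃ x ∈ K, f i x ≠ c i) : ∃ x ∈ K, ∀ i ∈ s, f i x ≠ c i := by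
  induction s using Finset.induction_on with
  | empty =>
    obtain ⟨x, hx⟩ := hne
    exact ⟨x, hx, by simp⟩
  | insert i s his ih =>
    obtain ⟨x, hx, hxs⟩ := ih (fun j hj => h j (Finset.mem_insert_of_mem hj))
    obtain ⟨y, hy, hyi⟩ := h i (Finset.mem_insert_self _ _)
    by_cases hxi : f i x ≠ c i
    · refine ⟨x, hx, fun j hj => ?_⟩
      rcases Finset.mem_insert.1 hj with rfl | hj
      · exact hxi
      · exact hxs j hj
    · push Not at hxi
      have hinf : (Set.Ioo (0 : ℝ) 1).Infinite := Set.Ioo_infinite (by norm_num)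
      obtain ⟨t, ht, hts⟩ := hinf.exists_notMem_finset
        (s.image (fun j => (c j - f j x) / (f j y - f j x)))
      refine ⟨(1 - t) • x + t • y, hK hx hy (by linarith [ht.2]) ht.1.le (by ring),
        fun j hj => ?_⟩
      have hv : f j ((1 - t) • x + t • y) = f j x + t * (f j y - f j x) := by
        rw [map_add, map_smul, map_smul, smul_eq_mul, smul_eq_mul]
        ring
      rw [hv]
      rcases Finset.mem_insert.1 hj with rfl | hj
      · rw [hxi]
        intro hcon
        have : t * (f j y - c j) = 0 := by linarith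
        rcases mul_eq_zero.1 this with h0 | h0
        · exact ht.1.ne' h0
        · exact hyi (by linarith)
      · intro hcon
        have h1 : t * (f j y - f j x) = c j - f j x := by linarith
        have h2 : c j - f j x ≠ 0 := fun h0 => hxs j hj (by linarith)
        have h3 : f j y - f j x ≠ 0 := fun h0 => h2 (by rw [← h1, h0, mul_zero])
        apply hts
        rw [Finset.mem_image]
        refine ⟨j, hj, ?_⟩
        rw [← h1]
        field_simp

variable {E : Type} [DecidableEq E] [Finite E]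

theorem exists_base (N : Matroid E) : ∃ B : Finset E, N.IsBase (B : Set E) := by
  obtain ⟨B, hB⟩ := N.exists_isBase
  obtain ⟨B', rfl⟩ := (Set.toFinite B).exists_finset_coe
  exact ⟨B', hB⟩

section sub

variable {M : Matroid E} {C : Set (Matroid E)} (hC : IsMatroidSubdivision M C)

include hC

theorem exists_full : ∃ N ∈ C, ∀ (A : Finset E) (k : ℕ),
    (∀ B : Finset E, N.IsBase (B : Set E) → (B ∩ A).card = k) →
    ∀ B : Finset E, M.IsBase (B : Set E) → (B ∩ A).card = k := by
  classical
  by_contra hcon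
  push Not at hcon
  choose! A k h1 B hB h2 using hcon
  have hfin := hC.finite
  have hne : (polytope M).Nonempty := by
    obtain ⟨B0, hB0⟩ := exists_base M
    exact ⟨_, vec_mem hB0⟩
  obtain ⟨x, hx, hx2⟩ := avoid (polytope M) (convex_polytope M) hne
    (fun N : Matroid E => ∑ e ∈ A N, (LinearMap.proj e : (E → ℝ) →ₗ[ℝ] ℝ)) (fun N => (k N : ℝ))
    hfin.toFinset (by
      intro N hN
      rw [Set.Finite.mem_toFinset] at hN
      refine ⟨vec (B N), vec_mem (hB N hN), ?_⟩
      rw [LinearMap.sum_apply]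
      simp only [LinearMap.proj_apply, vec]
      rw [← Finset.sum_filter, Finset.sum_const, nsmul_eq_mul, mul_one,
        Finset.filter_mem_eq_inter, Finset.inter_comm]
      exact_mod_cast h2 N hN)
  obtain ⟨N, hN, hxN⟩ := exists_cell hC hx
  apply hx2 N (by rwa [Set.Finite.mem_toFinset])
  obtain ⟨ι, _, w, D, R⟩ := exists_rep hxN
  rw [LinearMap.sum_apply]
  simp only [LinearMap.proj_apply]
  rw [R.sum_set (A N)]
  calc ∑ i, w i * ((D i ∩ A N).card : ℝ) = ∑ i, w i * (k N : ℝ) :=
        Finset.sum_congr rfl fun i _ => by rw [h1 N hN _ (R.base i)]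
    _ = k N := by rw [← Finset.sum_mul, R.sum, one_mul]

end sub

/-! ### fundamental graphs -/

/-- adjacency in the fundamental graph of a basis -/
def adj (N : Matroid E) (B : Finset E) (x y : E) : Prop :=
  x ∈ B ∧ y ∉ B ∧ N.IsBase ((insert y (B.erase x) : Finset E) : Set E)

theorem adj_rr {N : Matroid E} {B : Finset E} {x x1 y : E} (hx : x ∈ B) (hx1 : x1 ∈ B)
    (hne : x ≠ x1) (hy : y ∉ B) : adj N B x y ↔ rr N ((B.erase x).erase x1) x1 y := by
  have hyx : y ≠ x := fun h => hy (h ▸ hx)
  have hyx1 : y ≠ x1 := fun h => hy (h ▸ hx1)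
  have he : insert x1 (insert y ((B.erase x).erase x1)) = insert y (B.erase x) := by
    ext e
    simp only [Finset.mem_insert, Finset.mem_erase]
    by_cases h1 : e = x1
    · subst h1
      simp [hx1, Ne.symm hne]
    · simp [h1]
  constructor
  · rintro ⟨-, -, h⟩
    refine ⟨Ne.symm hyx1, by simp, by simp [hy], ?_⟩
    rw [he]
    exact h
  · rintro ⟨-, -, -, h⟩
    rw [he] at h
    exact ⟨hx, hy, h⟩

theorem adj_rr' {N : Matroid E} {B : Finset E} {x x1 y : E} (hx : x ∈ B) (hx1 : x1 ∈ B)
    (hne : x ≠ x1) (hy : y ∉ B) : adj N B x1 y ↔ rr N ((B.erase x).erase x1) x y := by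
  rw [Finset.erase_right_comm]
  exact adj_rr hx1 hx (Ne.symm hne) hy

theorem base_rr {N : Matroid E} {B : Finset E} {x x1 : E} (hx : x ∈ B) (hx1 : x1 ∈ B)
    (hne : x ≠ x1) : N.IsBase (B : Set E) ↔ rr N ((B.erase x).erase x1) x x1 := by
  have he : insert x (insert x1 ((B.erase x).erase x1)) = B := by
    rw [Finset.insert_erase (Finset.mem_erase.2 ⟨Ne.symm hne, hx1⟩), Finset.insert_erase hx]
  constructor
  · intro h
    refine ⟨hne, by simp, by simp, ?_⟩
    rw [he]
    exact h
  · rintro ⟨-, -, -, h⟩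
    rwa [he] at h

theorem two_rr {N : Matroid E} {B : Finset E} {x x1 y y0 : E} (hx : x ∈ B) (hx1 : x1 ∈ B)
    (hne : x ≠ x1) (hy : y ∉ B) (hy0 : y0 ∉ B) (hyy : y ≠ y0) :
    adj N (insert y0 (B.erase x1)) x y ↔ rr N ((B.erase x).erase x1) y y0 := by
  have hyx : y ≠ x := fun h => hy (h ▸ hx)
  have hyx1 : y ≠ x1 := fun h => hy (h ▸ hx1)
  have hy0x : y0 ≠ x := fun h => hy0 (h ▸ hx)
  have he : insert y (insert y0 ((B.erase x).erase x1)) =
      insert y ((insert y0 (B.erase x1)).erase x) := by
    ext e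
    simp only [Finset.mem_insert, Finset.mem_erase]
    by_cases h1 : e = y0
    · subst h1
      simp [hy0x]
    · simp only [h1, false_or]
      tauto
  constructor
  · rintro ⟨-, -, h⟩
    refine ⟨hyy, by simp [hy], by simp [hy0], ?_⟩
    rw [he]
    exact h
  · rintro ⟨-, -, -, h⟩
    rw [he] at h
    refine ⟨?_, ?_, h⟩
    · simp [hx, hne]
    · simp [hyy, hy]

/-- edges of the fundamental graph which survive a pivot -/
theorem persist {N : Matroid E} {B : Finset E} {x x1 y y0 : E}
    (h1 : adj N B x1 y0) (h2 : ¬ adj N B x y0) (h3 : adj N B x y) :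
    adj N (insert y0 (B.erase x1)) x y := by
  have hxx : x ≠ x1 := fun h => h2 (h ▸ h1)
  have hyy : y ≠ y0 := fun h => h2 (h ▸ h3)
  have hx := h3.1
  have hx1 := h1.1
  have hy := h3.2.1
  have hy0 := h1.2.1
  rw [two_rr hx hx1 hxx hy hy0 hyy]
  rw [adj_rr' hx hx1 hxx hy0] at h1
  rw [adj_rr hx hx1 hxx hy0] at h2
  rw [adj_rr hx hx1 hxx hy] at h3
  rcases rr_nt h3 y0 (rr_symm h1) with h | h
  · exact absurd h h2
  · exact h

/-- a new edge of the fundamental graph after a pivot -/
theorem new_edge {N : Matroid E} {B : Finset E} {x x1 y y0 : E} (hxx : x ≠ x1)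
    (h1 : adj N B x1 y0) (h2 : adj N B x y0) (h3 : adj N B x1 y) (h4 : ¬ adj N B x y) :
    adj N (insert y0 (B.erase x1)) x y := by
  have hyy : y ≠ y0 := fun h => h4 (h ▸ h2)
  have hx := h2.1
  have hx1 := h1.1
  have hy := h3.2.1
  have hy0 := h1.2.1
  rw [two_rr hx hx1 hxx hy hy0 hyy]
  rw [adj_rr hx hx1 hxx hy0] at h2
  rw [adj_rr' hx hx1 hxx hy] at h3
  rw [adj_rr hx hx1 hxx hy] at h4
  rcases rr_nt h2 y (rr_symm h3) with h | h
  · exact absurd h h4
  · exact rr_symm h

theorem no_edge {N : Matroid E} {B : Finset E} (hB : N.IsBase (B : Set E)) {x x1 y y0 : E}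
    (hxx : x ≠ x1) (hyy : y ≠ y0) (hx : x ∈ B) (hx1 : x1 ∈ B) (hy : y ∉ B) (hy0 : y0 ∉ B)
    (h3 : ¬ adj N B x1 y) (h4 : ¬ adj N B x y) :
    ¬ adj N (insert y0 (B.erase x1)) x y := by
  rw [two_rr hx hx1 hxx hy hy0 hyy]
  rw [adj_rr' hx hx1 hxx hy] at h3
  rw [adj_rr hx hx1 hxx hy] at h4
  rw [base_rr hx hx1 hxx] at hB
  intro h
  rcases rr_nt hB y h with h | h
  · exact h3 h
  · exact h4 h

theorem keep_edge {N : Matroid E} {B : Finset E} {x x1 y y0 : E}
    (hxx : x ≠ x1) (h1 : adj N B x1 y0) (h3 : ¬ adj N B x1 y) (h4 : adj N B x y) :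
    adj N (insert y0 (B.erase x1)) x y := by
  have hyy : y ≠ y0 := fun h => h3 (h ▸ h1)
  have hx := h4.1
  have hx1 := h1.1
  have hy := h4.2.1
  have hy0 := h1.2.1
  rw [two_rr hx hx1 hxx hy hy0 hyy]
  rw [adj_rr' hx hx1 hxx hy0] at h1
  rw [adj_rr' hx hx1 hxx hy] at h3
  rw [adj_rr hx hx1 hxx hy] at h4
  rcases rr_nt h1 y (rr_symm h4) with h | h
  · exact absurd h h3
  · exact rr_symm h

/-- `x` can be joined to `j` by a path of length `2 n + 1` in the fundamental graph -/
def Reach (N : Matroid E) (B : Finset E) (j : E) : ℕ → E → Prop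
  | 0, x => adj N B x j
  | n + 1, x => ∃ y x', adj N B x y ∧ adj N B x' y ∧ Reach N B j n x'

theorem inter_le {N : Matroid E} {B : Finset E} (hB : N.IsBase (B : Set E)) (p : E → Prop)
    [DecidablePred p] (hcl : ∀ x y, adj N B x y → p y → p x) (B' : Finset E)
    (hB' : N.IsBase (B' : Set E)) : (B'.filter p).card ≤ (B.filter p).card := by
  by_contra hcon
  push Not at hcon
  have i1 : N.Indep ((B.filter p : Finset E) : Set E) :=
    hB.indep.subset (by exact_mod_cast Finset.filter_subset p B)
  have i2 : N.Indep ((B'.filter p : Finset E) : Set E) :=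
    hB'.indep.subset (by exact_mod_cast Finset.filter_subset p B')
  obtain ⟨e, he, he', hi⟩ := i1.augment_finset i2 hcon
  rw [Finset.mem_filter] at he he'
  have heB : e ∉ B := fun h => he' ⟨h, he.2⟩
  have hi' : N.Indep ((insert e (B.filter p) : Finset E) : Set E) := by
    rw [Finset.coe_insert]
    exact hi
  obtain ⟨f, hf1, hf2, hf3⟩ := ext_base hB (Finset.filter_subset p B) heB hi'
  exact hf2 (Finset.mem_filter.2 ⟨hf1, hcl f e ⟨hf1, heB, hf3⟩ he.2⟩)

theorem inter_eq {N : Matroid E} {B : Finset E} (hB : N.IsBase (B : Set E)) (p : E → Prop)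
    [DecidablePred p] (hcl : ∀ x y, adj N B x y → (p x ↔ p y)) (B' : Finset E)
    (hB' : N.IsBase (B' : Set E)) : (B'.filter p).card = (B.filter p).card := by
  have h1 := inter_le hB p (fun x y h => (hcl x y h).2) B' hB'
  have h2 := inter_le hB (fun e => ¬ p e) (fun x y h hy hx => hy ((hcl x y h).1 hx)) B' hB'
  have h3 := card_eq hB hB'
  have h4 := Finset.card_filter_add_card_filter_not (s := B) p
  have h5 := Finset.card_filter_add_card_filter_not (s := B') p
  omega

section sub

variable {M : Matroid E} {C : Set (Matroid E)} (hC : IsMatroidSubdivision M C)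

include hC

theorem adj_mono {N : Matroid E} (hN : N ∈ C) {B : Finset E} {x y : E} (h : adj N B x y) :
    adj M B x y :=
  ⟨h.1, h.2.1, hC.bases N hN _ h.2.2⟩

theorem no_missing {N : Matroid E} (hN : N ∈ C)
    (hno : ∀ (S : Finset E) (a b c d : E), ¬ Typ M C S a b c d) :
    ∀ (n : ℕ) (B : Finset E) (i j : E), N.IsBase (B : Set E) → adj M B i j → ¬ adj N B i j →
      ¬ Reach N B j n i := by
  intro n
  induction n using Nat.strong_induction_on with
  | _ n ih =>
    intro B i j hB hM hNm hR
    match n, ih, hR with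
    | 0, _, hR => exact hNm hR
    | 1, _, hR =>
      obtain ⟨y, x1, h1, h2, h3⟩ := hR
      have hi := h1.1
      have hx1 := h2.1
      have hj := hM.2.1
      have hy := h1.2.1
      have hne : i ≠ x1 := fun h => hNm (h ▸ h3)
      have h3' : adj N B x1 j := h3
      have q1 := (adj_rr hi hx1 hne hy).1 h1
      have q2 := (adj_rr' hi hx1 hne hy).1 h2
      have q3 := (adj_rr' hi hx1 hne hj).1 h3'
      have q4 := (base_rr hi hx1 hne).1 hB
      have q5 := (adj_rr hi hx1 hne hj).1 hM
      have q6 := fun h => hNm ((adj_rr hi hx1 hne hj).2 h)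
      have q7 : rr N ((B.erase i).erase x1) y j := by
        rcases rr_nt q1 j (rr_symm q3) with h | h
        · exact absurd h q6
        · exact h
      exact hno ((B.erase i).erase x1) x1 j i y ⟨q5, rr_mono hC hN q2, N, hN, rr_symm q4,
        rr_symm q7, q1, rr_symm q3, fun h => q6 h.1⟩
    | m + 2, ih, hR =>
      obtain ⟨y0, x1, h1, h2, y1, x2, h3, h4, h5⟩ := hR
      have F : ∀ k, k < m + 2 → ¬ Reach N B j k i := fun k hk => ih k hk B i j hB hM hNm
      have G : ∀ k, k ≤ m → ∀ x, Reach N B j k x → ¬ adj N B x y0 := by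
        intro k hk x hx hxy
        exact F (k + 1) (by omega) ⟨y0, x, h1, hxy, hx⟩
      have hix1 : i ≠ x1 := by
        rintro rfl
        exact F (m + 1) (by omega) ⟨y1, x2, h3, h4, h5⟩
      have hjy0 : j ≠ y0 := by
        rintro rfl
        exact hNm h1
      have hx1j : ¬ adj N B x1 j := fun h => G 0 (by omega) x1 h h2
      have hiy1 : ¬ adj N B i y1 := fun h => F (m + 1) (by omega) ⟨y1, x2, h, h4, h5⟩
      by_cases hM1 : adj M B x1 j
      · exact ih (m + 1) (by omega) B x1 j hB hM1 hx1j ⟨y1, x2, h3, h4, h5⟩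
      · have hB1 : N.IsBase ((insert y0 (B.erase x1) : Finset E) : Set E) := h2.2.2
        have hM2 := keep_edge hix1 (adj_mono hC hN h2) hM1 hM
        have hN2 := no_edge hB hix1 hjy0 h1.1 h2.1 hM.2.1 h1.2.1 hx1j hNm
        refine ih (m + 1) (by omega) _ i j hB1 hM2 hN2 ⟨y1, x2, new_edge hix1 h2 h1 h3 hiy1,
          persist h2 (G m le_rfl x2 h5) h4, ?_⟩
        have P : ∀ k, k ≤ m → ∀ x, Reach N B j k x → Reach N (insert y0 (B.erase x1)) j k x := by
          intro k
          induction k with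
          | zero =>
            intro hk x hx
            exact persist h2 (G 0 hk x hx) hx
          | succ k ihk =>
            intro hk x hx
            obtain ⟨y, x', g1, g2, g3⟩ := hx
            exact ⟨y, x', persist h2 (G (k + 1) hk x ⟨y, x', g1, g2, g3⟩) g1,
              persist h2 (G k (by omega) x' g3) g2, ihk (by omega) x' g3⟩
        exact P m le_rfl x2 h5

theorem exists_missing {N : Matroid E} (hN : N ∈ C) {D : Finset E} (hD : M.IsBase (D : Set E))
    (hD' : ¬ N.IsBase (D : Set E)) :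
    ∀ (n : ℕ) (B : Finset E), N.IsBase (B : Set E) → (B \ D).card = n →
      ∃ B' i j, N.IsBase ((B' : Finset E) : Set E) ∧ adj M B' i j ∧ ¬ adj N B' i j := by
  intro n
  induction n using Nat.strong_induction_on with
  | _ n ih =>
    intro B hB hn
    have hBM := hC.bases N hN _ hB
    have hne : ∃ i, i ∈ B ∧ i ∉ D := by
      by_contra hcon
      push Not at hcon
      have hsub : B ⊆ D := hcon
      have : B = D := Finset.eq_of_subset_of_card_le hsub (card_eq hBM hD).ge
      exact hD' (this ▸ hB)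
    obtain ⟨i, hi, hiD⟩ := hne
    obtain ⟨j, hj1, hj2, hj3⟩ := exch hBM hD hi hiD
    by_cases hN1 : N.IsBase ((insert j (B.erase i) : Finset E) : Set E)
    · refine ih _ ?_ _ hN1 rfl
      rw [← hn]
      refine Finset.card_lt_card ?_
      rw [Finset.ssubset_iff_of_subset]
      · exact ⟨i, Finset.mem_sdiff.2 ⟨hi, hiD⟩, by
          simp only [Finset.mem_sdiff, Finset.mem_insert, Finset.mem_erase]
          rintro ⟨h | h, -⟩
          · exact hj2 (h ▸ hi)
          · exact h.1 rfl⟩
      · intro e he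
        simp only [Finset.mem_sdiff, Finset.mem_insert, Finset.mem_erase] at he ⊢
        rcases he.1 with h | h
        · exact absurd (h ▸ hj1) he.2
        · exact ⟨h.2, he.2⟩
    · exact ⟨B, i, j, hB, ⟨hi, hj2, hj3⟩, fun h => hN1 h.2.2⟩

/-- A matroid subdivision in which no octahedron is split is trivial. -/
theorem mem_of_no_typ (hno : ∀ (S : Finset E) (a b c d : E), ¬ Typ M C S a b c d) : M ∈ C := by
  classical
  obtain ⟨N, hN, hfull⟩ := exists_full hC
  suffices h : N = M from h ▸ hN
  refine Matroid.ext_isBase (hC.ground N hN) fun B _ => ⟨hC.bases N hN B, fun hB => ?_⟩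
  by_contra hBN
  obtain ⟨D, rfl⟩ := (Set.toFinite B).exists_finset_coe
  obtain ⟨B0, hB0⟩ := exists_base N
  obtain ⟨B, i, j, h1, h2, h3⟩ := exists_missing hC hN hB hBN _ B0 hB0 rfl
  have hreach : ∃ n, Reach N B j n i := by
    by_contra hcon
    push Not at hcon
    set p : E → Prop := fun e => e = j ∨ (∃ n, Reach N B j n e) ∨
      (∃ x, adj N B x e ∧ ∃ n, Reach N B j n x) with hp
    have hRB : ∀ n x, Reach N B j n x → x ∈ B := by
      intro n x hx
      cases n with
      | zero => exact hx.1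
      | succ n =>
        obtain ⟨y, x', g, -, -⟩ := hx
        exact g.1
    have hcl : ∀ x y, adj N B x y → (p x ↔ p y) := by
      intro x y hxy
      constructor
      · rintro (h | h | ⟨x', h, -⟩)
        · exact absurd (h ▸ hxy.1) h2.2.1
        · exact Or.inr (Or.inr ⟨x, hxy, h⟩)
        · exact absurd hxy.1 h.2.1
      · rintro (h | ⟨n, h⟩ | ⟨x', h, n, hn⟩)
        · exact Or.inr (Or.inl ⟨0, by subst h; exact hxy⟩)
        · exact absurd (hRB n y h) hxy.2.1
        · exact Or.inr (Or.inl ⟨n + 1, y, x', hxy, h, hn⟩)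
    have hk := inter_eq h1 p hcl
    have hA : ∀ B' : Finset E, B' ∩ ((Set.toFinite {e | p e}).toFinset) = B'.filter p := by
      intro B'
      ext e
      simp
    have h4 := hfull ((Set.toFinite {e | p e}).toFinset) (B.filter p).card (by
      intro B' hB'
      rw [hA]
      exact hk B' hB') _ h2.2.2
    rw [hA, Finset.filter_insert, if_pos (Or.inl rfl : p j), Finset.filter_erase] at h4
    have hpi : ¬ p i := by
      rintro (h | ⟨n, h⟩ | ⟨x', h, -⟩)
      · exact h2.2.1 (h ▸ h2.1)
      · exact hcon n h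
      · exact h.2.1 h2.1
    rw [Finset.erase_eq_of_notMem (by simp [hpi]), Finset.card_insert_of_notMem
      (by simp [h2.2.1])] at h4
    omega
  obtain ⟨n, hn⟩ := hreach
  exact no_missing hC hN hno n B i j h1 h2 h3 hn

/-- all cells are faces of a cell which is everything -/
theorem face_of_mem (hM : M ∈ C) {N : Matroid E} (hN : N ∈ C) :
    IsExtreme ℝ (polytope M) (polytope N) := by
  have h := hC.face M hM N hN
  have hsub : polytope N ⊆ polytope M := by
    rw [← hC.cover]
    exact Set.subset_biUnion_of_mem hN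
  rwa [Set.inter_eq_right.2 hsub] at h

end sub

end Pool.Agent.Q295.PGI
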