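import Pool.Agent.Q295.PGI.Sig
import Pool.Agent.Q295.PGI.Triv

/-!
# Finest matroid subdivisions
-/

set_option autoImplicit false
set_option linter.unusedSectionVars false

namespace Pool.Agent.Q295.PGI

open Finset Filter Topology

variable {E : Type} [DecidableEq E] [Fintype E]

/-- The subdivision with the cells `C'` refines the one with the cells `C`: every cell of `C'` lies
in a cell of `C`. -/
def Refines (C' C : Set (Matroid E)) : Prop :=
  ∀ N' ∈ C', ∃ N ∈ C, polytope N' ⊆ polytope N

/-- A finest matroid subdivision of the matroid polytope of `U`: one which is not properly refined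
by any matroid subdivision. -/
def IsFinest (U : Matroid E) (C : Set (Matroid E)) : Prop :=
  IsMatroidSubdivision U C ∧
    ∀ C' : Set (Matroid E), IsMatroidSubdivision U C' → Refines C' C → Refines C C'

/-- A matroid is indecomposable if its matroid polytope is a cell of each of its matroid
subdivisions. -/
def Indecomposable (N : Matroid E) : Prop :=
  ∀ D : Set (Matroid E), IsMatroidSubdivision N D → N ∈ D

theorem finite_matroid : Finite (Matroid E) := by
  refine Finite.of_injective
    (fun N : Matroid E => (N.E, {B : Set E | N.IsBase B})) ?_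
  intro N N' h
  rw [Prod.mk.injEq] at h
  refine Matroid.ext_isBase h.1 fun B _ => ?_
  have := congrArg (fun s : Set (Set E) => B ∈ s) h.2
  simpa using this

theorem exists_finest {U : Matroid E} {C0 : Set (Matroid E)} (h0 : IsMatroidSubdivision U C0) :
    ∃ C, IsFinest U C ∧ Refines C C0 := by
  classical
  have := finite_matroid (E := E)
  set f : Set (Matroid E) → ℕ :=
    fun C => Set.ncard {N : Matroid E | ∃ N0 ∈ C, polytope N ⊆ polytope N0} with hf
  obtain ⟨C, ⟨hC1, hC2⟩, hmin⟩ := WellFounded.has_min (measure f).wf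
    {C | IsMatroidSubdivision U C ∧ Refines C C0} ⟨C0, h0, fun N hN => ⟨N, hN, subset_rfl⟩⟩
  refine ⟨C, ⟨hC1, fun C' hC' href => ?_⟩, hC2⟩
  have href2 : Refines C' C0 := by
    intro N' hN'
    obtain ⟨N, hN, hs⟩ := href N' hN'
    obtain ⟨N0, hN0, hs0⟩ := hC2 N hN
    exact ⟨N0, hN0, hs.trans hs0⟩
  have hle : f C ≤ f C' := by
    by_contra hlt
    push Not at hlt
    exact hmin C' ⟨hC', href2⟩ hlt
  have hsub : {N : Matroid E | ∃ N0 ∈ C', polytope N ⊆ polytope N0} ⊆
      {N : Matroid E | ∃ N0 ∈ C, polytope N ⊆ polytope N0} := by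
    rintro N ⟨N0, hN0, hs⟩
    obtain ⟨N1, hN1, hs1⟩ := href N0 hN0
    exact ⟨N1, hN1, hs.trans hs1⟩
  have heq := Set.eq_of_subset_of_ncard_le hsub hle (Set.toFinite _)
  intro N hN
  have : N ∈ {N : Matroid E | ∃ N0 ∈ C, polytope N ⊆ polytope N0} := ⟨N, hN, subset_rfl⟩
  rw [← heq] at this
  exact this

theorem isClosed_polytope (N : Matroid E) : IsClosed (polytope N) := by
  have hfin : {x : E → ℝ | ∃ B : Finset E, N.IsBase (B : Set E) ∧ x = vec B}.Finite := by
    refine (Set.finite_range (fun B : Finset E => vec B)).subset ?_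
    rintro x ⟨B, -, rfl⟩
    exact ⟨B, rfl⟩
  exact hfin.isClosed_convexHull ℝ

theorem bases_of_subset {N N' : Matroid E} (h : polytope N ⊆ polytope N') (B : Finset E)
    (hB : N.IsBase (B : Set E)) : N'.IsBase (B : Set E) :=
  base_of_vec_mem (h (vec_mem hB))

/-- the segment from `x` to `y` near `x` -/
theorem mem_of_segment {T : Set (E → ℝ)} (hT : IsClosed T) (x y : E → ℝ)
    (h : ∀ t : ℝ, 0 < t → t ≤ 1 → (1 - t) • x + t • y ∈ T) : x ∈ T := by
  have hc : Continuous (fun t : ℝ => (1 - t) • x + t • y) := by fun_prop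
  have h1 : Tendsto (fun t : ℝ => (1 - t) • x + t • y) (𝓝[>] 0) (𝓝 x) := by
    have : Tendsto (fun t : ℝ => (1 - t) • x + t • y) (𝓝 0) (𝓝 ((1 - (0 : ℝ)) • x + (0 : ℝ) • y)) :=
      hc.tendsto 0
    simp only [sub_zero, one_smul, zero_smul, add_zero] at this
    exact this.mono_left nhdsWithin_le_nhds
  refine hT.mem_of_tendsto h1 ?_
  have : Set.Ioc (0 : ℝ) 1 ∈ 𝓝[>] (0 : ℝ) := Ioc_mem_nhdsGT (by norm_num)
  filter_upwards [this] with t ht
  exact h t ht.1 ht.2

section lin

variable (lines : Set (Finset E)) (U M : Matroid E) (NL : Finset E → Matroid E)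
    (hUE : U.E = Set.univ) (hU : ∀ B : Finset E, U.IsBase (B : Set E) ↔ B.card = 3)
    (hME : M.E = Set.univ)
    (hM : ∀ B : Finset E, M.IsBase (B : Set E) ↔ B.card = 3 ∧ ∀ L ∈ lines, ¬ B ⊆ L)
    (hNE : ∀ L ∈ lines, (NL L).E = Set.univ)
    (hNL : ∀ L ∈ lines, ∀ B : Finset E,
      (NL L).IsBase (B : Set E) ↔ B.card = 3 ∧ 2 ≤ (B ∩ L).card)
    (hint : ∀ L ∈ lines, ∀ L' ∈ lines, 2 ≤ (L ∩ L').card → L = L')

include hUE hU hME hM hNE hNL hint

/-- the cells of a refinement inside the polytope of the linear space -/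
theorem restrict {C : Set (Matroid E)} (hC : IsMatroidSubdivision U C)
    (href : Refines C (insert M {N | ∃ L ∈ lines, N = NL L}))
    (x0 : E → ℝ) (hx0 : x0 ∈ polytope M) (hx0L : ∀ L ∈ lines, ∑ e ∈ L, x0 e < 2) :
    IsMatroidSubdivision M {N | N ∈ C ∧ polytope N ⊆ polytope M} := by
  have hMle : ∀ L ∈ lines, ∀ B : Finset E, M.IsBase (B : Set E) → (B ∩ L).card ≤ 2 := by
    intro L hL B hB
    rw [hM] at hB
    by_contra hcon
    have h1 : (B ∩ L).card = B.card := by
      have := Finset.card_le_card (Finset.inter_subset_left : B ∩ L ⊆ B)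
      omega
    have h2 := Finset.eq_of_subset_of_card_le (Finset.inter_subset_left : B ∩ L ⊆ B) h1.ge
    exact hB.2 L hL (Finset.inter_eq_left.1 h2)
  refine ⟨hC.finite.subset fun N hN => hN.1, ?_, ?_, ?_, ?_⟩
  · intro N hN
    rw [hC.ground N hN.1, hUE, hME]
  · intro N hN B hB
    obtain ⟨B, rfl⟩ := (Set.toFinite B).exists_finset_coe
    exact bases_of_subset hN.2 B hB
  · apply Set.Subset.antisymm
    · exact Set.iUnion₂_subset fun N hN => hN.2
    · intro x hx
      have hcl : IsClosed (⋃ N ∈ {N | N ∈ C ∧ polytope N ⊆ polytope M}, polytope N) :=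
        (hC.finite.subset fun N hN => hN.1).isClosed_biUnion fun N _ => isClosed_polytope N
      refine mem_of_segment hcl x x0 fun t ht0 ht1 => ?_
      have hxt : (1 - t) • x + t • x0 ∈ polytope M :=
        convex_polytope M hx hx0 (by linarith) ht0.le (by ring)
      have hsubU : polytope M ⊆ polytope U :=
        polytope_mono fun B hB => (hU B).2 ((hM B).1 hB).1
      obtain ⟨N, hN, hxN⟩ := exists_cell hC (hsubU hxt)
      obtain ⟨N0, hN0, hs⟩ := href N hN
      rcases hN0 with rfl | ⟨L, hL, rfl⟩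
      · exact Set.mem_biUnion (⟨hN, hs⟩ : N ∈ {N | N ∈ C ∧ polytope N ⊆ polytope _}) hxN
      · exfalso
        have h1 := le_sum (hs hxN) L 2 (fun B hB => ((hNL L hL B).1 hB).2)
        have h2 := sum_segment L (rfl : (1 - t) • x + t • x0 = _)
        have h3 := sum_le hx L 2 (hMle L hL)
        have h4 := hx0L L hL
        push_cast at h1 h3
        nlinarith
  · intro N hN N' hN'
    exact hC.face N hN.1 N' hN'.1

/-- the cell on the other side of a line -/
theorem neighbour {C : Set (Matroid E)} (hC : IsMatroidSubdivision U C) (hMC : M ∈ C)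
    (href : Refines C (insert M {N | ∃ L ∈ lines, N = NL L})) (L : Finset E) (hL : L ∈ lines)
    (hL3 : 3 ≤ L.card) (hout : ∃ j, j ∉ L) :
    ∃ N ∈ C, (∀ N' ∈ C, polytope N ⊆ polytope N' → N' = N) ∧
      (∀ B : Finset E, N.IsBase (B : Set E) → B.card = 3 ∧ 2 ≤ (B ∩ L).card) ∧
      (∀ B : Finset E, B.card = 3 → (B ∩ L).card = 2 → N.IsBase (B : Set E)) ∧
      ∃ B : Finset E, N.IsBase (B : Set E) ∧ B ⊆ L := by
  classical
  have hNM : ∀ B : Finset E, B.card = 3 → (B ∩ L).card = 2 → M.IsBase (B : Set E) := by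
    intro B hB h2
    rw [hM]
    refine ⟨hB, fun L' hL' hsub => ?_⟩
    have h3 : B ∩ L ⊆ L' ∩ L := Finset.inter_subset_inter_right hsub
    have h4 := hint L' hL' L hL (by have := Finset.card_le_card h3; omega)
    subst h4
    rw [Finset.inter_eq_left.2 hsub] at h2
    omega
  set Fc : Finset (Finset E) := univ.filter (fun B => B.card = 3 ∧ (B ∩ L).card = 2) with hFc
  have hFcm : ∀ B, B ∈ Fc ↔ B.card = 3 ∧ (B ∩ L).card = 2 := by
    intro B
    simp [hFc]
  obtain ⟨j, hj⟩ := hout
  obtain ⟨A3, hA3, hA3c⟩ := Finset.exists_subset_card_eq hL3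
  obtain ⟨A2, hA2, hA2c⟩ := Finset.exists_subset_card_eq (show 2 ≤ L.card by omega)
  have hFne : Fc.Nonempty := by
    refine ⟨insert j A2, (hFcm _).2 ⟨?_, ?_⟩⟩
    · rw [Finset.card_insert_of_notMem (fun h => hj (hA2 h)), hA2c]
    · rw [Finset.insert_inter_of_notMem hj, Finset.inter_eq_left.2 hA2, hA2c]
  set m : ℝ := (Fc.card : ℝ) with hm
  have hm0 : 0 < m := by
    rw [hm]
    exact_mod_cast Finset.card_pos.2 hFne
  set f : E → ℝ := ∑ B ∈ Fc, (1 / m) • vec B with hf
  set D : Set (Matroid E) := {N | N ∈ C ∧ ∃ B : Finset E, N.IsBase (B : Set E) ∧ B ⊆ L} with hD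
  have hcl : IsClosed (⋃ N ∈ D, polytope N) :=
    (hC.finite.subset fun N hN => hN.1).isClosed_biUnion fun N _ => isClosed_polytope N
  have hfM : f ∈ polytope M := by
    refine (convex_polytope M).sum_mem (fun _ _ => by positivity) ?_ ?_
    · rw [Finset.sum_const, nsmul_eq_mul, ← hm]
      field_simp
    · intro B hB
      rw [hFcm] at hB
      exact vec_mem (hNM B hB.1 hB.2)
  have hMU : polytope M ⊆ polytope U :=
    polytope_mono fun B hB => (hU B).2 ((hM B).1 hB).1
  have hvec : ∀ B : Finset E, ∑ e ∈ L, vec B e = ((B ∩ L).card : ℝ) := by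
    intro B
    simp only [vec]
    rw [← Finset.sum_filter, Finset.sum_const, nsmul_eq_mul, mul_one, Finset.inter_comm,
      Finset.filter_mem_eq_inter]
  have hfL : ∑ e ∈ L, f e = 2 := by
    have h1 : ∀ e, f e = ∑ B ∈ Fc, (1 / m) * vec B e := by
      intro e
      rw [hf, Finset.sum_apply]
      rfl
    simp only [h1]
    rw [Finset.sum_comm]
    have h2 : ∀ B ∈ Fc, ∑ e ∈ L, (1 / m) * vec B e = (1 / m) * 2 := by
      intro B hB
      rw [← Finset.mul_sum, hvec, ((hFcm B).1 hB).2]
      norm_num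
    rw [Finset.sum_congr rfl h2, Finset.sum_const, nsmul_eq_mul, ← hm]
    field_simp
  have hfD : f ∈ ⋃ N ∈ D, polytope N := by
    refine mem_of_segment hcl f (vec A3) fun t ht0 ht1 => ?_
    have h1 : (1 - t) • f + t • vec A3 ∈ polytope U :=
      convex_polytope U (hMU hfM) (vec_mem ((hU A3).2 hA3c)) (by linarith) ht0.le (by ring)
    obtain ⟨N, hN, hxN⟩ := exists_cell hC h1
    refine Set.mem_biUnion (⟨hN, ?_⟩ : N ∈ D) hxN
    by_contra hno
    push Not at hno
    have h2 := sum_le hxN L 2 (by
      intro B hB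
      by_contra hcon
      have h3 : B.card = 3 := (hU B).1 (by exact_mod_cast hC.bases N hN _ hB)
      have h4 := Finset.eq_of_subset_of_card_le (Finset.inter_subset_left : B ∩ L ⊆ B) (by omega)
      exact hno B hB (Finset.inter_eq_left.1 h4))
    have h3 := sum_segment L (rfl : (1 - t) • f + t • vec A3 = _)
    rw [hfL, hvec, Finset.inter_eq_left.2 hA3, hA3c] at h3
    push_cast at h2 h3
    nlinarith
  -- a cell with the greatest number of bases
  have hfin : ({N | N ∈ D ∧ f ∈ polytope N} : Set (Matroid E)).Finite :=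
    hC.finite.subset fun N hN => hN.1.1
  have hne : ({N | N ∈ D ∧ f ∈ polytope N} : Set (Matroid E)).Nonempty := by
    simp only [Set.mem_iUnion, exists_prop] at hfD
    exact hfD
  obtain ⟨N, ⟨⟨hNC, B0, hB0, hB0L⟩, hfN⟩, hmax⟩ := hfin.exists_maximalFor
    (fun N : Matroid E => (univ.filter (fun B : Finset E => N.IsBase (B : Set E))).card) _ hne
  refine ⟨N, hNC, ?_, ?_, ?_, B0, hB0, hB0L⟩
  · intro N' hN' hs
    have h1 : N' ∈ ({N | N ∈ D ∧ f ∈ polytope N} : Set (Matroid E)) :=
      ⟨⟨hN', B0, bases_of_subset hs B0 hB0, hB0L⟩, hs hfN⟩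
    have h2 : univ.filter (fun B : Finset E => N.IsBase (B : Set E)) ⊆
        univ.filter (fun B : Finset E => N'.IsBase (B : Set E)) := by
      intro B hB
      rw [Finset.mem_filter] at hB ⊢
      exact ⟨hB.1, bases_of_subset hs B hB.2⟩
    have h3 := hmax h1 (Finset.card_le_card h2)
    have h4 := Finset.eq_of_subset_of_card_le h2 h3
    refine Matroid.ext_isBase (by rw [hC.ground N' hN', hC.ground N hNC]) fun B _ => ?_
    obtain ⟨B, rfl⟩ := (Set.toFinite B).exists_finset_coe
    have h5 : B ∈ univ.filter (fun B : Finset E => N'.IsBase (B : Set E)) ↔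
        B ∈ univ.filter (fun B : Finset E => N.IsBase (B : Set E)) := by rw [h4]
    simpa using h5
  · intro B hB
    obtain ⟨N0, hN0, hs⟩ := href N hNC
    rcases hN0 with rfl | ⟨L', hL', rfl⟩
    · exact absurd hB0L (((hM B0).1 (bases_of_subset hs B0 hB0)).2 L hL)
    · have h1 := ((hNL L' hL' B0).1 (bases_of_subset hs B0 hB0)).2
      have h2 : L = L' := by
        refine hint L hL L' hL' (h1.trans (Finset.card_le_card ?_))
        exact Finset.inter_subset_inter_right hB0L
      rw [h2]
      exact (hNL L' hL' B).1 (bases_of_subset hs B hB)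
  · intro B hB hB2
    have hBF : B ∈ Fc := (hFcm B).2 ⟨hB, hB2⟩
    have hface := hC.face M hMC N hNC
    by_cases hm1 : m = 1
    · have h1 : Fc = {B} := by
        have : Fc.card = 1 := by
          rw [hm] at hm1
          exact_mod_cast hm1
        obtain ⟨B', hB'⟩ := Finset.card_eq_one.1 this
        rw [hB', Finset.mem_singleton] at hBF
        rw [hB', hBF]
      have h2 : f = vec B := by
        rw [hf, h1, Finset.sum_singleton, hm1]
        simp
      rw [h2] at hfN
      exact base_of_vec_mem hfN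
    · have hm2 : 1 < m := by
        have h1 : 1 ≤ Fc.card := Finset.card_pos.2 hFne
        have h2 : (1 : ℝ) ≤ m := by
          rw [hm]
          exact_mod_cast h1
        exact lt_of_le_of_ne h2 (Ne.symm hm1)
      set g : E → ℝ := ∑ A ∈ Fc.erase B, (1 / (m - 1)) • vec A with hg
      have hgM : g ∈ polytope M := by
        refine (convex_polytope M).sum_mem (fun _ _ => by
          have : 0 < m - 1 := by linarith
          positivity) ?_ ?_
        · rw [Finset.sum_const, nsmul_eq_mul, Finset.card_erase_of_mem hBF, Nat.cast_sub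
            (Finset.card_pos.2 hFne), ← hm]
          have : m - 1 ≠ 0 := by linarith
          push_cast
          field_simp
        · intro A hA
          have := (hFcm A).1 (Finset.mem_of_mem_erase hA)
          exact vec_mem (hNM A this.1 this.2)
      have hfg : f ∈ openSegment ℝ (vec B) g := by
        refine ⟨1 / m, 1 - 1 / m, by positivity, ?_, by ring, ?_⟩
        · have : 1 / m < 1 := by
            rw [div_lt_one hm0]
            exact hm2
          linarith
        · rw [hf, hg, ← Finset.add_sum_erase _ _ hBF, Finset.smul_sum]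
          congr 1
          refine Finset.sum_congr rfl fun A _ => ?_
          rw [smul_smul]
          congr 1
          have : m - 1 ≠ 0 := by linarith
          field_simp
      exact base_of_vec_mem (hface.left_mem_of_mem_openSegment (vec_mem (hNM B hB hB2)) hgM
        ⟨hfM, hfN⟩ hfg).2

end lin

end Pool.Agent.Q295.PGI
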