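import Pool.Agent.Q295.PGI.PG

/-!
# Types of octahedra are invariant under projectivities
-/

set_option autoImplicit false
set_option linter.unusedSectionVars false

namespace Pool.Agent.Q295.PGI

open Finset Module
open scoped LinearAlgebra.Projectivization

variable {F V : Type} [Field F] [Finite F] [AddCommGroup V] [Module F V] [FiniteDimensional F V]
  [DecidableEq (ℙ F V)]

theorem nzP (x : F) : (![x, 1, 0] : Fin 3 → F) ≠ 0 := by
  intro h
  have := congrFun h 1
  simp at this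

theorem nzI : (![1, 0, 0] : Fin 3 → F) ≠ 0 := by
  intro h
  have := congrFun h 0
  simp at this

theorem nzS (t : F) : (![0, t, 1] : Fin 3 → F) ≠ 0 := by
  intro h
  have := congrFun h 2
  simp at this

theorem nzQ (x t : F) : (![x, t, 1] : Fin 3 → F) ≠ 0 := by
  intro h
  have := congrFun h 2
  simp at this

theorem single_le (a : Fin 3 → F) : finrank F (Submodule.span F {a}) ≤ 1 := by
  by_cases h : a = 0
  · rw [h, Submodule.span_zero_singleton, finrank_bot]
    omega
  · rw [finrank_span_singleton h]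

theorem pair_le (a b : Fin 3 → F) : finrank F (Submodule.span F {a, b}) ≤ 2 := by
  rw [Submodule.span_insert]
  have h1 := Submodule.finrank_add_le_finrank_add_finrank (Submodule.span F {a})
    (Submodule.span F {b})
  have h2 := single_le a
  have h3 := single_le b
  omega

section shift

variable {C : Set (Matroid (ℙ F V))} (hC : IsMatroidSubdivision (PG F V) C)
  {S' : Finset (ℙ F V)} {e1 e2 e3 : V} (hF : Frame (F := F) S' e1 e2 e3)

theorem col_le (d : Fin 3 → F) (hd : d ≠ 0) (U : Submodule F (Fin 3 → F)) (hU : d ∈ U) :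
    (hF.pnt d hd).submodule ≤ U.map (lin e1 e2 e3) := by
  rw [hF.submodule_pnt]
  refine Submodule.map_mono ?_
  rwa [Submodule.span_singleton_le_iff_mem]

include hC

theorem shift (l : F) (hl0 : l ≠ 0) (hl1 : l ≠ 1) (x y : F)
    (h : Typ (PG F V) C (insert (hF.pnt ![0, 0, 1] (nzS 0)) S') (hF.pnt ![0, 1, 0] (nzP 0))
      (hF.pnt ![x, 1, 0] (nzP x)) (hF.pnt ![y, 1, 0] (nzP y)) (hF.pnt ![1, 0, 0] nzI)) :
    Typ (PG F V) C (insert (hF.pnt ![0, 0, 1] (nzS 0)) S') (hF.pnt ![0, 1, 0] (nzP 0))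
      (hF.pnt ![l * x, 1, 0] (nzP _)) (hF.pnt ![l * y, 1, 0] (nzP _)) (hF.pnt ![1, 0, 0] nzI) := by
  have hx0 : x ≠ 0 := by
    have := h.1
    rw [hF.rr_iff, Matrix.det_fin_three] at this
    simpa using this
  have hy0 : y ≠ 0 := by
    obtain ⟨-, -, N, hN, k, -⟩ := h
    have := rr_mono hC hN k
    rw [hF.rr_iff, Matrix.det_fin_three] at this
    simpa using this
  have hl1' : 1 - l ≠ 0 := sub_ne_zero.2 (Ne.symm hl1)
  have hlx : l * x ≠ 0 := mul_ne_zero hl0 hx0
  have hly : l * y ≠ 0 := mul_ne_zero hl0 hy0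
  -- first perspectivity, at `S`
  have t1 : Typ (PG F V) C (insert (hF.pnt ![0, 0, 1] (nzS 0)) S')
      (hF.pnt ![0, -l, 1] (nzQ 0 (-l)))
      (hF.pnt ![x, 1, 0] (nzP x)) (hF.pnt ![y, 1, 0] (nzP y)) (hF.pnt ![1, 0, 0] nzI) := by
    refine stepA hC h ?_ ?_
    · rw [hF.rr_iff, Matrix.det_fin_three]
      simp [hl0, hx0]
    · rw [hF.rr_iff, Matrix.det_fin_three]
      simp
  have t2 : Typ (PG F V) C (insert (hF.pnt ![0, 0, 1] (nzS 0)) S')
      (hF.pnt ![0, -l, 1] (nzQ 0 (-l)))
      (hF.pnt ![-(l * x), -l, 1] (nzQ _ _)) (hF.pnt ![y, 1, 0] (nzP y))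
      (hF.pnt ![1, 0, 0] nzI) := by
    refine (stepA hC t1.symm12 ?_ ?_).symm12
    · rw [hF.rr_iff, Matrix.det_fin_three]
      simp [hl0, hx0]
    · rw [hF.rr_iff, Matrix.det_fin_three, not_not]
      simp
      ring
  have t3 : Typ (PG F V) C (insert (hF.pnt ![0, 0, 1] (nzS 0)) S')
      (hF.pnt ![0, -l, 1] (nzQ 0 (-l)))
      (hF.pnt ![-(l * x), -l, 1] (nzQ _ _)) (hF.pnt ![-(l * y), -l, 1] (nzQ _ _))
      (hF.pnt ![1, 0, 0] nzI) := by
    refine (stepA hC t2.swap ?_ ?_).swap
    · rw [hF.rr_iff, Matrix.det_fin_three]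
      simp [hl0]
    · rw [hF.rr_iff, Matrix.det_fin_three, not_not]
      simp
      ring
  have r1 : rr (PG F V) (insert (hF.pnt ![0, 0, 1] (nzS 0)) S') (hF.pnt ![1, 0, 0] nzI)
      (hF.pnt ![0, 1 - l, 1] (nzS (1 - l))) := by
    rw [hF.rr_iff, Matrix.det_fin_three]
    simp [hl1']
  have hne : hF.pnt ![0, 0, 1] (nzS 0) ≠ hF.pnt ![0, 1 - l, 1] (nzS (1 - l)) := by
    intro heq
    exact r1.2.2.1 (by rw [heq]; exact Finset.mem_insert_self _ _)
  -- the exchange of the centre
  have t4 : Typ (PG F V) C (insert (hF.pnt ![0, 1 - l, 1] (nzS (1 - l))) S')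
      (hF.pnt ![0, -l, 1] (nzQ 0 (-l)))
      (hF.pnt ![-(l * x), -l, 1] (nzQ _ _)) (hF.pnt ![-(l * y), -l, 1] (nzQ _ _))
      (hF.pnt ![1, 0, 0] nzI) := by
    refine stepB hC (hF.notMem _ _) (hF.notMem _ _) hne t3 ?_ ?_ ?_
    · rw [hF.rr_iff, Matrix.det_fin_three]
      simp
      intro hcon
      apply hlx
      linear_combination -hcon
    · rw [hF.rr_iff, Matrix.det_fin_three]
      simp
    · refine inter_le_two ((Submodule.span F {![1, 0, 0], ![0, -l, 1]}).map (lin e1 e2 e3)) ?_ ?_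
      · exact (Submodule.finrank_map_le _ _).trans (pair_le _ _)
      · intro p hp
        simp only [Finset.mem_insert, Finset.mem_singleton] at hp
        rcases hp with rfl | rfl | rfl | rfl
        · refine col_le hF _ _ _ (Submodule.subset_span (by simp))
        · refine col_le hF _ _ _ ?_
          rw [Submodule.mem_span_pair]
          exact ⟨-(l * x), 1, by ext k; fin_cases k <;> simp⟩
        · refine col_le hF _ _ _ ?_
          rw [Submodule.mem_span_pair]
          exact ⟨-(l * y), 1, by ext k; fin_cases k <;> simp⟩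
        · refine col_le hF _ _ _ (Submodule.subset_span (by simp))
  -- second perspectivity, at the new `S`
  have t5 : Typ (PG F V) C (insert (hF.pnt ![0, 1 - l, 1] (nzS (1 - l))) S')
      (hF.pnt ![0, 1, 0] (nzP 0))
      (hF.pnt ![-(l * x), -l, 1] (nzQ _ _)) (hF.pnt ![-(l * y), -l, 1] (nzQ _ _))
      (hF.pnt ![1, 0, 0] nzI) := by
    refine stepA hC t4 ?_ ?_
    · rw [hF.rr_iff, Matrix.det_fin_three]
      simp [hl0, hx0]
    · rw [hF.rr_iff, Matrix.det_fin_three]
      simp
  have t6 : Typ (PG F V) C (insert (hF.pnt ![0, 1 - l, 1] (nzS (1 - l))) S')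
      (hF.pnt ![0, 1, 0] (nzP 0))
      (hF.pnt ![l * x, 1, 0] (nzP _)) (hF.pnt ![-(l * y), -l, 1] (nzQ _ _))
      (hF.pnt ![1, 0, 0] nzI) := by
    refine (stepA hC t5.symm12 ?_ ?_).symm12
    · rw [hF.rr_iff, Matrix.det_fin_three]
      simp [hl0, hx0]
    · rw [hF.rr_iff, Matrix.det_fin_three, not_not]
      simp
      ring
  have t7 : Typ (PG F V) C (insert (hF.pnt ![0, 1 - l, 1] (nzS (1 - l))) S')
      (hF.pnt ![0, 1, 0] (nzP 0))
      (hF.pnt ![l * x, 1, 0] (nzP _)) (hF.pnt ![l * y, 1, 0] (nzP _))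
      (hF.pnt ![1, 0, 0] nzI) := by
    refine (stepA hC t6.swap ?_ ?_).swap
    · rw [hF.rr_iff, Matrix.det_fin_three]
      simp
    · rw [hF.rr_iff, Matrix.det_fin_three, not_not]
      simp
      ring
  refine stepB hC (hF.notMem _ _) (hF.notMem _ _) (Ne.symm hne) t7 ?_ ?_ ?_
  · rw [hF.rr_iff, Matrix.det_fin_three]
    simp [hl0, hx0]
  · rw [hF.rr_iff, Matrix.det_fin_three]
    simp
  · refine inter_le_two ((Submodule.span F {![1, 0, 0], ![0, 1, 0]}).map (lin e1 e2 e3)) ?_ ?_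
    · exact (Submodule.finrank_map_le _ _).trans (pair_le _ _)
    · intro p hp
      simp only [Finset.mem_insert, Finset.mem_singleton] at hp
      rcases hp with rfl | rfl | rfl | rfl
      · refine col_le hF _ _ _ (Submodule.subset_span (by simp))
      · refine col_le hF _ _ _ ?_
        rw [Submodule.mem_span_pair]
        exact ⟨l * x, 1, by ext k; fin_cases k <;> simp⟩
      · refine col_le hF _ _ _ ?_
        rw [Submodule.mem_span_pair]
        exact ⟨l * y, 1, by ext k; fin_cases k <;> simp⟩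
      · refine col_le hF _ _ _ (Submodule.subset_span (by simp))

end shift

end Pool.Agent.Q295.PGI
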