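import Pool.Agent.Q295.PGI.Min

/-!
# The subdivision of a hypersimplex of rank three given by the lines of a linear space
-/

set_option autoImplicit false
set_option linter.unusedSectionVars false

namespace Pool.Agent.Q295.PGI

open Finset

variable {E : Type} [DecidableEq E] [Fintype E]

/-- a matroid given by its bases -/
theorem exists_matroid (P : Finset E → Prop) (hne : ∃ B, P B)
    (hex : ∀ B1 B2, P B1 → P B2 → ∀ e, e ∈ B1 → e ∉ B2 →
      ∃ f, f ∈ B2 ∧ f ∉ B1 ∧ P (insert f (B1.erase e))) :
    ∃ N : Matroid E, N.E = Set.univ ∧ ∀ B : Finset E, N.IsBase (B : Set E) ↔ P B := by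
  obtain ⟨B0, hB0⟩ := hne
  have hexch : Matroid.ExchangeProperty (fun S : Set E => ∃ B : Finset E, P B ∧ (B : Set E) = S) := by
    rintro _ _ ⟨B1, h1, rfl⟩ ⟨B2, h2, rfl⟩ e he
    have he1 : e ∈ B1 := by
      have := (Set.mem_sdiff _).1 he
      exact_mod_cast this.1
    have he2 : e ∉ B2 := by
      have := (Set.mem_sdiff _).1 he
      exact_mod_cast this.2
    obtain ⟨f, hf1, hf2, hf3⟩ := hex B1 B2 h1 h2 e he1 he2
    refine ⟨f, (Set.mem_sdiff _).2 ⟨by exact_mod_cast hf1, by exact_mod_cast hf2⟩,
      insert f (B1.erase e), hf3, ?_⟩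
    push_cast
    rfl
  have hfin : ∃ S : Set E, (∃ B : Finset E, P B ∧ (B : Set E) = S) ∧ S.Finite :=
    ⟨B0, ⟨B0, hB0, rfl⟩, Finset.finite_toSet _⟩
  refine ⟨Matroid.ofExistsFiniteIsBase Set.univ _ hfin hexch (fun _ _ => Set.subset_univ _), rfl,
    fun B => ?_⟩
  rw [Matroid.ofExistsFiniteIsBase_isBase]
  constructor
  · rintro ⟨B', h, hB⟩
    have : B' = B := by exact_mod_cast hB
    rwa [← this]
  · intro h
    exact ⟨B, h, rfl⟩

/-- the uniform matroid -/
theorem exists_uniform (k : ℕ) (hk : k ≤ Fintype.card E) :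
    ∃ U : Matroid E, U.E = Set.univ ∧ ∀ B : Finset E, U.IsBase (B : Set E) ↔ B.card = k := by
  refine exists_matroid _ ?_ ?_
  · obtain ⟨B, -, hB⟩ := Finset.exists_subset_card_eq (s := (univ : Finset E)) (by simpa using hk)
    exact ⟨B, hB⟩
  · intro B1 B2 h1 h2 e he he'
    have : ∃ f, f ∈ B2 ∧ f ∉ B1 := by
      by_contra hcon
      push Not at hcon
      have h3 : B2 ⊆ B1 := hcon
      have h4 := Finset.eq_of_subset_of_card_le h3 (by omega)
      exact he' (h4 ▸ he)
    obtain ⟨f, hf1, hf2⟩ := this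
    refine ⟨f, hf1, hf2, ?_⟩
    rw [Finset.card_insert_of_notMem (fun h => hf2 (Finset.mem_of_mem_erase h)),
      Finset.card_erase_of_mem he]
    have : 0 < B1.card := Finset.card_pos.2 ⟨e, he⟩
    omega

/-- the cell beyond a line -/
theorem exists_NL (L : Finset E) (hL : 3 ≤ L.card) :
    ∃ N : Matroid E, N.E = Set.univ ∧
      ∀ B : Finset E, N.IsBase (B : Set E) ↔ B.card = 3 ∧ 2 ≤ (B ∩ L).card := by
  refine exists_matroid _ ?_ ?_
  · obtain ⟨B, hBL, hB⟩ := Finset.exists_subset_card_eq hL
    refine ⟨B, hB, ?_⟩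
    rw [Finset.inter_eq_left.2 hBL]
    omega
  · rintro B1 B2 ⟨h1, h1'⟩ ⟨h2, h2'⟩ e he he'
    have hf : ∃ f, f ∈ B2 ∧ f ∉ B1 := by
      by_contra hcon
      push Not at hcon
      have h3 : B2 ⊆ B1 := hcon
      have h4 := Finset.eq_of_subset_of_card_le h3 (by omega)
      exact he' (h4 ▸ he)
    have hcard : ∀ f, f ∉ B1 → (insert f (B1.erase e)).card = 3 := by
      intro f hf
      rw [Finset.card_insert_of_notMem (fun h => hf (Finset.mem_of_mem_erase h)),
        Finset.card_erase_of_mem he]
      omega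
    by_cases heL : e ∈ L
    · by_cases h3 : 3 ≤ (B1 ∩ L).card
      · obtain ⟨f, hf1, hf2⟩ := hf
        refine ⟨f, hf1, hf2, hcard f hf2, ?_⟩
        have h4 : (B1 ∩ L).erase e ⊆ insert f (B1.erase e) ∩ L := by
          intro z hz
          simp only [Finset.mem_erase, Finset.mem_inter, Finset.mem_insert] at hz ⊢
          exact ⟨Or.inr ⟨hz.1, hz.2.1⟩, hz.2.2⟩
        have h5 := Finset.card_le_card h4
        rw [Finset.card_erase_of_mem (Finset.mem_inter.2 ⟨he, heL⟩)] at h5
        omega
      · have : ∃ f, f ∈ B2 ∩ L ∧ f ∉ B1 := by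
          by_contra hcon
          push Not at hcon
          have h3' : B2 ∩ L ⊆ (B1 ∩ L).erase e := by
            intro z hz
            rw [Finset.mem_erase, Finset.mem_inter]
            refine ⟨fun h => he' ?_, hcon z hz, (Finset.mem_inter.1 hz).2⟩
            rw [← h]
            exact (Finset.mem_inter.1 hz).1
          have h5 := Finset.card_le_card h3'
          rw [Finset.card_erase_of_mem (Finset.mem_inter.2 ⟨he, heL⟩)] at h5
          omega
        obtain ⟨f, hf1, hf2⟩ := this
        rw [Finset.mem_inter] at hf1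
        refine ⟨f, hf1.1, hf2, hcard f hf2, ?_⟩
        have h4 : insert f ((B1 ∩ L).erase e) ⊆ insert f (B1.erase e) ∩ L := by
          intro z hz
          simp only [Finset.mem_erase, Finset.mem_inter, Finset.mem_insert] at hz ⊢
          rcases hz with rfl | hz
          · exact ⟨Or.inl rfl, hf1.2⟩
          · exact ⟨Or.inr ⟨hz.1, hz.2.1⟩, hz.2.2⟩
        have h5 := Finset.card_le_card h4
        rw [Finset.card_insert_of_notMem (fun h => hf2 (by
          simp only [Finset.mem_erase, Finset.mem_inter] at h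
          exact h.2.1)), Finset.card_erase_of_mem (Finset.mem_inter.2 ⟨he, heL⟩)] at h5
        omega
    · obtain ⟨f, hf1, hf2⟩ := hf
      refine ⟨f, hf1, hf2, hcard f hf2, ?_⟩
      have h4 : B1 ∩ L ⊆ insert f (B1.erase e) ∩ L := by
        intro z hz
        simp only [Finset.mem_erase, Finset.mem_inter, Finset.mem_insert] at hz ⊢
        exact ⟨Or.inr ⟨fun h => heL (h ▸ hz.2), hz.1⟩, hz.2⟩
      exact h1'.trans (Finset.card_le_card h4)

/-! ### separating functionals -/

theorem sum_le {N : Matroid E} {x : E → ℝ} (hx : x ∈ polytope N) (L : Finset E) (k : ℕ)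
    (h : ∀ B : Finset E, N.IsBase (B : Set E) → (B ∩ L).card ≤ k) : ∑ e ∈ L, x e ≤ k := by
  obtain ⟨ι, _, w, B, R⟩ := exists_rep hx
  rw [R.sum_set L]
  calc ∑ i, w i * ((B i ∩ L).card : ℝ) ≤ ∑ i, w i * (k : ℝ) := by
        refine Finset.sum_le_sum fun i _ => mul_le_mul_of_nonneg_left ?_ (R.nonneg i)
        exact_mod_cast h _ (R.base i)
    _ = k := by rw [← Finset.sum_mul, R.sum, one_mul]

theorem le_sum {N : Matroid E} {x : E → ℝ} (hx : x ∈ polytope N) (L : Finset E) (k : ℕ)
    (h : ∀ B : Finset E, N.IsBase (B : Set E) → k ≤ (B ∩ L).card) : (k : ℝ) ≤ ∑ e ∈ L, x e := by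
  obtain ⟨ι, _, w, B, R⟩ := exists_rep hx
  rw [R.sum_set L]
  calc (k : ℝ) = ∑ i, w i * (k : ℝ) := by rw [← Finset.sum_mul, R.sum, one_mul]
    _ ≤ ∑ i, w i * ((B i ∩ L).card : ℝ) := by
        refine Finset.sum_le_sum fun i _ => mul_le_mul_of_nonneg_left ?_ (R.nonneg i)
        exact_mod_cast h _ (R.base i)

theorem mem_of_sum_eq {N N' : Matroid E} {x : E → ℝ} (hx : x ∈ polytope N) (L : Finset E) (k : ℕ)
    (h : (∀ B : Finset E, N.IsBase (B : Set E) → (B ∩ L).card ≤ k) ∨
      (∀ B : Finset E, N.IsBase (B : Set E) → k ≤ (B ∩ L).card))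
    (hs : ∑ e ∈ L, x e = k)
    (h3 : ∀ B : Finset E, N.IsBase (B : Set E) → (B ∩ L).card = k → N'.IsBase (B : Set E)) :
    x ∈ polytope N' := by
  obtain ⟨w, W⟩ := exists_wrep hx
  have h4 : ∑ B, w B * ((k : ℝ) - ((B ∩ L).card : ℝ)) = 0 := by
    have h5 : ∑ e ∈ L, x e = ∑ B, w B * ((B ∩ L).card : ℝ) := by
      calc ∑ e ∈ L, x e = ∑ e ∈ L, ∑ B, w B * vec B e :=
            Finset.sum_congr rfl fun e _ => (W.val e).symm
        _ = ∑ B, ∑ e ∈ L, w B * vec B e := Finset.sum_comm
        _ = ∑ B, w B * ((B ∩ L).card : ℝ) := by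
            refine Finset.sum_congr rfl fun B _ => ?_
            rw [← Finset.mul_sum]
            congr 1
            simp only [vec]
            rw [← Finset.sum_filter, Finset.sum_const, nsmul_eq_mul, mul_one, Finset.inter_comm,
              Finset.filter_mem_eq_inter]
    simp only [mul_sub, Finset.sum_sub_distrib, ← Finset.sum_mul, W.sum, ← h5, hs]
    ring
  have hb : ∀ B : Finset E, 0 < w B → N.IsBase (B : Set E) := by
    intro B hB
    by_contra hn
    exact hB.ne' (W.supp B hn)
  refine W.mem fun B hB => h3 B (hb B hB) ?_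
  have key : w B * ((k : ℝ) - ((B ∩ L).card : ℝ)) = 0 := by
    rcases h with h | h
    · refine (Finset.sum_eq_zero_iff_of_nonneg ?_).1 h4 B (mem_univ B)
      intro A _
      by_cases hA : N.IsBase (A : Set E)
      · have : ((A ∩ L).card : ℝ) ≤ k := by exact_mod_cast h A hA
        exact mul_nonneg (W.nonneg A) (by linarith)
      · rw [W.supp A hA, zero_mul]
    · refine (Finset.sum_eq_zero_iff_of_nonpos ?_).1 h4 B (mem_univ B)
      intro A _
      by_cases hA : N.IsBase (A : Set E)
      · have : (k : ℝ) ≤ ((A ∩ L).card : ℝ) := by exact_mod_cast h A hA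
        exact mul_nonpos_of_nonneg_of_nonpos (W.nonneg A) (by linarith)
      · rw [W.supp A hA, zero_mul]
  rcases mul_eq_zero.1 key with h6 | h6
  · exact absurd h6 hB.ne'
  · have : ((B ∩ L).card : ℝ) = k := by linarith
    exact_mod_cast this

theorem sum_segment {x y z : E → ℝ} (L : Finset E) {a b : ℝ}
    (h : a • x + b • y = z) : ∑ e ∈ L, z e = a * ∑ e ∈ L, x e + b * ∑ e ∈ L, y e := by
  rw [← h, Finset.mul_sum, Finset.mul_sum, ← Finset.sum_add_distrib]
  rfl

theorem face_le {N N' : Matroid E} (L : Finset E) (k : ℕ)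
    (h1 : ∀ B : Finset E, N.IsBase (B : Set E) → (B ∩ L).card ≤ k)
    (h2 : ∀ B : Finset E, N'.IsBase (B : Set E) → k ≤ (B ∩ L).card)
    (h3 : ∀ B : Finset E, N.IsBase (B : Set E) → (B ∩ L).card = k → N'.IsBase (B : Set E)) :
    IsExtreme ℝ (polytope N) (polytope N ∩ polytope N') := by
  refine ⟨Set.inter_subset_left, ?_⟩
  rintro x hx y hy z ⟨hz, hz'⟩ ⟨a, b, ha, hb, hab, hxy⟩
  refine ⟨hx, mem_of_sum_eq hx L k (Or.inl h1) ?_ h3⟩
  have e1 := sum_segment L hxy
  have e2 := sum_le hx L k h1
  have e3 := sum_le hy L k h1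
  have e4 := le_sum hz' L k h2
  nlinarith

theorem face_ge {N N' : Matroid E} (L : Finset E) (k : ℕ)
    (h1 : ∀ B : Finset E, N.IsBase (B : Set E) → k ≤ (B ∩ L).card)
    (h2 : ∀ B : Finset E, N'.IsBase (B : Set E) → (B ∩ L).card ≤ k)
    (h3 : ∀ B : Finset E, N.IsBase (B : Set E) → (B ∩ L).card = k → N'.IsBase (B : Set E)) :
    IsExtreme ℝ (polytope N) (polytope N ∩ polytope N') := by
  refine ⟨Set.inter_subset_left, ?_⟩
  rintro x hx y hy z ⟨hz, hz'⟩ ⟨a, b, ha, hb, hab, hxy⟩
  refine ⟨hx, mem_of_sum_eq hx L k (Or.inr h1) ?_ h3⟩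
  have e1 := sum_segment L hxy
  have e2 := le_sum hx L k h1
  have e3 := le_sum hy L k h1
  have e4 := sum_le hz' L k h2
  nlinarith

theorem polytope_mono {N N' : Matroid E}
    (h : ∀ B : Finset E, N.IsBase (B : Set E) → N'.IsBase (B : Set E)) :
    polytope N ⊆ polytope N' := by
  refine convexHull_mono ?_
  rintro x ⟨B, hB, rfl⟩
  exact ⟨B, h B hB, rfl⟩

/-- The subdivision of the hypersimplex of rank three by the lines of a linear space. -/
theorem sigma0 (lines : Set (Finset E)) (U M : Matroid E) (NL : Finset E → Matroid E)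
    (hUE : U.E = Set.univ) (hU : ∀ B : Finset E, U.IsBase (B : Set E) ↔ B.card = 3)
    (hME : M.E = Set.univ)
    (hM : ∀ B : Finset E, M.IsBase (B : Set E) ↔ B.card = 3 ∧ ∀ L ∈ lines, ¬ B ⊆ L)
    (hNE : ∀ L ∈ lines, (NL L).E = Set.univ)
    (hNL : ∀ L ∈ lines, ∀ B : Finset E,
      (NL L).IsBase (B : Set E) ↔ B.card = 3 ∧ 2 ≤ (B ∩ L).card)
    (hint : ∀ L ∈ lines, ∀ L' ∈ lines, 2 ≤ (L ∩ L').card → L = L') :
    IsMatroidSubdivision U (insert M {N | ∃ L ∈ lines, N = NL L}) := by
  classical
  have hMle : ∀ L ∈ lines, ∀ B : Finset E, M.IsBase (B : Set E) → (B ∩ L).card ≤ 2 := by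
    intro L hL B hB
    rw [hM] at hB
    by_contra hcon
    have h1 : (B ∩ L).card = B.card := by
      have := Finset.card_le_card (Finset.inter_subset_left : B ∩ L ⊆ B)
      omega
    have h2 := Finset.eq_of_subset_of_card_le (Finset.inter_subset_left : B ∩ L ⊆ B) h1.ge
    exact hB.2 L hL (Finset.inter_eq_left.1 h2)
  have hNM : ∀ L ∈ lines, ∀ B : Finset E, B.card = 3 → (B ∩ L).card = 2 →
      M.IsBase (B : Set E) := by
    intro L hL B hB h2
    rw [hM]
    refine ⟨hB, fun L' hL' hsub => ?_⟩
    have h3 : B ∩ L ⊆ L' ∩ L := Finset.inter_subset_inter_right hsub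
    have h4 := hint L' hL' L hL (by have := Finset.card_le_card h3; omega)
    subst h4
    rw [Finset.inter_eq_left.2 hsub] at h2
    omega
  refine ⟨?_, ?_, ?_, ?_, ?_⟩
  · refine Set.Finite.insert _ ?_
    have : {N | ∃ L ∈ lines, N = NL L} = NL '' lines := by
      ext N
      constructor
      · rintro ⟨L, hL, rfl⟩
        exact ⟨L, hL, rfl⟩
      · rintro ⟨L, hL, rfl⟩
        exact ⟨L, hL, rfl⟩
    rw [this]
    exact (Set.toFinite lines).image _
  · rintro N (rfl | ⟨L, hL, rfl⟩)
    · rw [hME, hUE]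
    · rw [hNE L hL, hUE]
  · intro N hN B hB
    obtain ⟨B, rfl⟩ := (Set.toFinite B).exists_finset_coe
    rw [hU]
    rcases hN with rfl | ⟨L, hL, rfl⟩
    · exact ((hM B).1 hB).1
    · exact ((hNL L hL B).1 hB).1
  · apply Set.Subset.antisymm
    · refine Set.iUnion₂_subset ?_
      rintro N (rfl | ⟨L, hL, rfl⟩)
      · exact polytope_mono fun B hB => (hU B).2 ((hM B).1 hB).1
      · exact polytope_mono fun B hB => (hU B).2 ((hNL L hL B).1 hB).1
    · intro x hx
      obtain ⟨w, W, hmin⟩ := exists_min hx (fun B => if ∃ L ∈ lines, B ⊆ L then 1 else 0)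
      have hb : ∀ B : Finset E, 0 < w B → B.card = 3 := by
        intro B hB
        by_contra hn
        exact hB.ne' (W.supp B (fun h => hn ((hU B).1 h)))
      by_cases hc : ∃ B1, 0 < w B1 ∧ ∃ L ∈ lines, B1 ⊆ L
      · obtain ⟨B1, hB1, L, hL, hsub⟩ := hc
        refine Set.mem_biUnion (Or.inr ⟨L, hL, rfl⟩) (W.mem fun B2 hB2 => ?_)
        rw [hNL L hL]
        refine ⟨hb B2 hB2, ?_⟩
        by_contra hlt
        push Not at hlt
        have c1 := hb B1 hB1
        have c2 := hb B2 hB2
        have i0 : (B1 ∩ B2).card ≤ 1 := by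
          have : B1 ∩ B2 ⊆ B2 ∩ L := by
            intro z hz
            rw [Finset.mem_inter] at hz ⊢
            exact ⟨hz.2, hsub hz.1⟩
          have := Finset.card_le_card this
          omega
        have i1 : 1 < (B1 \ B2).card := by
          have := Finset.card_sdiff_add_card_inter B1 B2
          omega
        obtain ⟨i, hi, i', hi', hii⟩ := Finset.one_lt_card.1 i1
        have j1 : (B2 \ L).Nonempty := by
          rw [← Finset.card_pos]
          have := Finset.card_sdiff_add_card_inter B2 L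
          omega
        obtain ⟨j, hj⟩ := j1
        rw [Finset.mem_sdiff] at hi hi' hj
        have hjB1 : j ∉ B1 := fun h => hj.2 (hsub h)
        have good : ∀ u, u ∈ B1 → u ∉ B2 → ∃ L' ∈ lines, insert u (B2.erase j) ⊆ L' := by
          intro u hu hu2
          by_contra hno
          have hbase3 : (insert j (B1.erase u)).card = 3 := by
            rw [Finset.card_insert_of_notMem (fun h => hjB1 (Finset.mem_of_mem_erase h)),
              Finset.card_erase_of_mem hu]
            omega
          have hbase4 : (insert u (B2.erase j)).card = 3 := by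
            rw [Finset.card_insert_of_notMem (fun h => hu2 (Finset.mem_of_mem_erase h)),
              Finset.card_erase_of_mem hj.1]
            omega
          have h5 := hmin B1 B2 (insert j (B1.erase u)) (insert u (B2.erase j)) hB1 hB2
            ((hU _).2 hbase3) ((hU _).2 hbase4) (by
              intro e
              unfold vec
              have huj : u ≠ j := fun h => hjB1 (h ▸ hu)
              by_cases k1 : e = u
              · subst k1
                simp [hu, hu2, huj]
              · by_cases k2 : e = j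
                · subst k2
                  simp [hjB1, hj.1, Ne.symm huj]
                · simp [k1, k2])
          have r1 : ∃ L ∈ lines, B1 ⊆ L := ⟨L, hL, hsub⟩
          have r3 : ¬ ∃ L' ∈ lines, insert j (B1.erase u) ⊆ L' := by
            rintro ⟨L', hL', hs⟩
            have h6 : B1.erase u ⊆ L' ∩ L := by
              intro z hz
              rw [Finset.mem_inter]
              exact ⟨hs (Finset.mem_insert_of_mem hz), hsub (Finset.mem_of_mem_erase hz)⟩
            have h7 := Finset.card_le_card h6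
            rw [Finset.card_erase_of_mem hu] at h7
            have h8 := hint L' hL' L hL (by omega)
            exact hj.2 (h8 ▸ hs (Finset.mem_insert_self _ _))
          rw [if_pos r1, if_neg r3, if_neg hno] at h5
          have : (0 : ℝ) ≤ if ∃ L ∈ lines, B2 ⊆ L then 1 else 0 := by split_ifs <;> norm_num
          linarith
        obtain ⟨L1, hL1, s1⟩ := good i hi.1 hi.2
        obtain ⟨L2, hL2, s2⟩ := good i' hi'.1 hi'.2
        have hB2e : (B2.erase j).card = 2 := by
          rw [Finset.card_erase_of_mem hj.1]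
          omega
        have h12 : L1 = L2 := by
          refine hint L1 hL1 L2 hL2 ?_
          rw [← hB2e]
          refine Finset.card_le_card fun z hz => ?_
          rw [Finset.mem_inter]
          exact ⟨s1 (Finset.mem_insert_of_mem hz), s2 (Finset.mem_insert_of_mem hz)⟩
        have h1L : L1 = L := by
          refine hint L1 hL1 L hL ?_
          rw [← Finset.card_pair hii]
          refine Finset.card_le_card ?_
          intro z hz
          simp only [Finset.mem_insert, Finset.mem_singleton] at hz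
          rw [Finset.mem_inter]
          rcases hz with rfl | rfl
          · exact ⟨s1 (Finset.mem_insert_self _ _), hsub hi.1⟩
          · exact ⟨h12 ▸ s2 (Finset.mem_insert_self _ _), hsub hi'.1⟩
        have h9 : B2.erase j ⊆ B2 ∩ L := by
          intro z hz
          rw [Finset.mem_inter]
          exact ⟨Finset.mem_of_mem_erase hz, h1L ▸ s1 (Finset.mem_insert_of_mem hz)⟩
        have := Finset.card_le_card h9
        omega
      · refine Set.mem_biUnion (Or.inl rfl) (W.mem fun B hB => ?_)
        rw [hM]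
        exact ⟨hb B hB, fun L hL hsub => hc ⟨B, hB, L, hL, hsub⟩⟩
  · rintro N (rfl | ⟨L, hL, rfl⟩) N' (rfl | ⟨L', hL', rfl⟩)
    · rw [Set.inter_self]
    · refine face_le L' 2 (hMle L' hL') (fun B hB => ((hNL L' hL' B).1 hB).2) ?_
      intro B hB h2
      rw [hNL L' hL']
      exact ⟨((hM B).1 hB).1, h2.ge⟩
    · refine face_ge L 2 (fun B hB => ((hNL L hL B).1 hB).2) (hMle L hL) ?_
      intro B hB h2
      exact hNM L hL B ((hNL L hL B).1 hB).1 h2
    · by_cases hLL : L = L'
      · subst hLL
        rw [Set.inter_self]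
      · refine face_le L' 2 ?_ (fun B hB => ((hNL L' hL' B).1 hB).2) ?_
        · intro B hB
          rw [hNL L hL] at hB
          have h1 : B ∩ L' ⊆ (L ∩ L') ∪ (B \ L) := by
            intro z hz
            rw [Finset.mem_inter] at hz
            rw [Finset.mem_union, Finset.mem_inter, Finset.mem_sdiff]
            by_cases hzL : z ∈ L
            · exact Or.inl ⟨hzL, hz.2⟩
            · exact Or.inr ⟨hz.1, hzL⟩
          have h2 := (Finset.card_le_card h1).trans (Finset.card_union_le _ _)
          have h3 : (L ∩ L').card < 2 := by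
            by_contra hcon
            exact hLL (hint L hL L' hL' (by omega))
          have h4 := Finset.card_sdiff_add_card_inter B L
          omega
        · intro B hB h2
          rw [hNL L' hL']
          exact ⟨((hNL L hL B).1 hB).1, h2.ge⟩

end Pool.Agent.Q295.PGI
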