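import Pool.Agent.Q295.PGI.Typ

/-!
# Transitivity and transport of types
-/

set_option autoImplicit false
set_option linter.unusedSectionVars false

namespace Pool.Agent.Q295.PGI

open Finset

variable {E : Type} [DecidableEq E]

theorem mem3 {N : Matroid E} {B1 B2 B3 : Finset E} (h1 : N.IsBase (B1 : Set E))
    (h2 : N.IsBase (B2 : Set E)) (h3 : N.IsBase (B3 : Set E)) :
    (fun e => 1 / 4 * vec B1 e + 1 / 4 * vec B2 e + 1 / 2 * vec B3 e) ∈ polytope N := by
  have R : Rep N (fun e => 1 / 4 * vec B1 e + 1 / 4 * vec B2 e + 1 / 2 * vec B3 e) (Fin 3)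
      ![1 / 4, 1 / 4, 1 / 2] ![B1, B2, B3] := by
    refine ⟨?_, ?_, ?_, ?_⟩
    · intro i
      fin_cases i <;> norm_num
    · rw [Fin.sum_univ_three]
      show (1 / 4 : ℝ) + 1 / 4 + 1 / 2 = 1
      norm_num
    · intro i
      fin_cases i
      · exact h1
      · exact h2
      · exact h3
    · intro e
      rw [Fin.sum_univ_three]
      rfl
  exact R.mem

section sub

variable {M : Matroid E} {C : Set (Matroid E)} (hC : IsMatroidSubdivision M C)

include hC

theorem typ_trans {S : Finset E} {o x y w i : E} (h1 : Typ M C S o x y i)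
    (h2 : Typ M C S o y w i) (hxw : x ≠ w) : Typ M C S o x w i := by
  have h1' := h1
  have h2' := h2
  obtain ⟨a1, a2, N1, hN1, a3, a4, a5, a6, -⟩ := h1'
  obtain ⟨b1, b2, N2, hN2, b3, b4, b5, b6, -⟩ := h2'
  have hox : o ≠ x := a1.1
  have hoy : o ≠ y := b1.1
  have how : o ≠ w := b3.1
  have hoi : o ≠ i := a5.1
  have hxy : x ≠ y := a6.1
  have hxi : x ≠ i := a4.1
  have hyw : y ≠ w := b6.1
  have hyi : y ≠ i := a2.1
  have hwi : w ≠ i := b2.1
  have ho : o ∉ S := a1.2.1
  have hx : x ∉ S := a1.2.2.1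
  have hy : y ∉ S := a2.2.1
  have hi : i ∉ S := a2.2.2.1
  have hw : w ∉ S := b2.2.1
  have c1 := rr_mono hC hN2 b3
  have c2 := b1
  have c3 := rr_mono hC hN1 a4
  obtain ⟨N, hN, hpN⟩ := exists_cell hC (mem3 c1.2.2.2 c2.2.2.2 c3.2.2.2)
  set p : E → ℝ := fun e => 1 / 4 * vec (insert o (insert w S)) e +
    1 / 4 * vec (insert o (insert y S)) e + 1 / 2 * vec (insert x (insert i S)) e with hp
  have pe : ∀ e, p e = vec S e + (dl o e + dl x e + dl i e) / 2 + (dl w e + dl y e) / 4 := by
    intro e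
    simp only [hp]
    rw [vec_pair how ho hw, vec_pair hoy ho hy, vec_pair hxi hx hi]
    ring
  have hr := card_base hC hN a1
  have p1 : ∀ e ∈ S, p e = 1 := by
    intro e he
    have n1 : e ≠ o := fun h => ho (h ▸ he)
    have n2 : e ≠ x := fun h => hx (h ▸ he)
    have n3 : e ≠ i := fun h => hi (h ▸ he)
    have n4 : e ≠ w := fun h => hw (h ▸ he)
    have n5 : e ≠ y := fun h => hy (h ▸ he)
    rw [pe]
    simp [vec, dl, he, n1, n2, n3, n4, n5]
  have po : p o = 1 / 2 := by
    rw [pe]; simp [vec, dl, ho, hox, hoi, how, hoy]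
  have px : p x = 1 / 2 := by
    rw [pe]; simp [vec, dl, hx, hox.symm, hxi, hxw, hxy]
  have pi : p i = 1 / 2 := by
    rw [pe]; simp [vec, dl, hi, hoi.symm, hxi.symm, hwi.symm, hyi.symm]
  have pw : p w = 1 / 4 := by
    rw [pe]; simp [vec, dl, hw, how.symm, hxw.symm, hwi, hyw.symm]
  have py : p y = 1 / 4 := by
    rw [pe]; simp [vec, dl, hy, hoy.symm, hxy.symm, hyi, hyw]
  have A1 : Ant N S o x y i := by
    refine ant_of_weights hr hpN p1 hox hoy hoi hxy hxi hyi ho hx hy hi ?_ ?_ ?_ ?_ ?_ ?_ ?_ ?_ <;>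
      simp only [po, px, pi, pw, py] <;> norm_num
  have A2 : Ant N S o x w i := by
    refine ant_of_weights hr hpN p1 hox how hoi hxw hxi hwi ho hx hw hi ?_ ?_ ?_ ?_ ?_ ?_ ?_ ?_ <;>
      simp only [po, px, pi, pw, py] <;> norm_num
  obtain ⟨s1, s2, s3, s4, s5⟩ := shows_of_ant hC hN h1 A1
  have hneg : ¬ (rr N S o x ∧ rr N S w i) := by
    rintro ⟨k1, k2⟩
    have := shows_of_ant hC hN h2 (Or.inl ⟨s1, k2⟩)
    exact s5 ⟨k1, this.2.1⟩
  refine ⟨a1, b2, N, hN, ?_, s2, s3, ?_, hneg⟩
  · rcases A2 with k | k | k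
    · exact absurd k hneg
    · exact k.1
    · by_cases q : rr N S o x
      · have q2 : ¬ rr N S w i := fun h => hneg ⟨q, h⟩
        rcases rr_nt s3 w (rr_symm k.2) with h | h
        · exact h
        · exact absurd (rr_symm h) q2
      · rcases rr_nt k.2 o s3 with h | h
        · exact absurd (rr_symm h) q
        · exact rr_symm h
  · rcases A2 with k | k | k
    · exact absurd k hneg
    · by_cases q : rr N S o x
      · have q2 : ¬ rr N S w i := fun h => hneg ⟨q, h⟩
        rcases rr_nt s2 w (rr_symm k.1) with h | h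
        · exact h
        · exact absurd (rr_symm h) q2
      · rcases rr_nt k.1 x s2 with h | h
        · exact absurd h q
        · exact rr_symm h
    · exact k.2

theorem stepA {S : Finset E} {a a' b c d : E} (h : Typ M C S a b c d) (ha' : rr M S a' b)
    (hpar : ¬ rr M S a a') : Typ M C S a' b c d := by
  by_cases haa : a = a'
  · rw [← haa]
    exact h
  have h' := h
  obtain ⟨a1, a2, N1, hN1, a3, a4, a5, a6, -⟩ := h'
  have hab : a ≠ b := a1.1
  have hac : a ≠ c := a3.1
  have had : a ≠ d := a5.1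
  have hbc : b ≠ c := a6.1
  have hbd : b ≠ d := a4.1
  have hcd : c ≠ d := a2.1
  have ha'b : a' ≠ b := ha'.1
  have ha'c : a' ≠ c := fun hh => hpar (hh ▸ rr_mono hC hN1 a3)
  have ha'd : a' ≠ d := fun hh => hpar (hh ▸ rr_mono hC hN1 a5)
  have ha : a ∉ S := a1.2.1
  have hb : b ∉ S := a1.2.2.1
  have hc : c ∉ S := a2.2.1
  have hd : d ∉ S := a2.2.2.1
  have ha's : a' ∉ S := ha'.2.1
  obtain ⟨N, hN, hpN⟩ := exists_cell hC (mem3 a1.2.2.2 ha'.2.2.2 a2.2.2.2)
  set p : E → ℝ := fun e => 1 / 4 * vec (insert a (insert b S)) e +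
    1 / 4 * vec (insert a' (insert b S)) e + 1 / 2 * vec (insert c (insert d S)) e with hp
  have pe : ∀ e, p e = vec S e + (dl b e + dl c e + dl d e) / 2 + (dl a e + dl a' e) / 4 := by
    intro e
    simp only [hp]
    rw [vec_pair hab ha hb, vec_pair ha'b ha's hb, vec_pair hcd hc hd]
    ring
  have hr := card_base hC hN a1
  have p1 : ∀ e ∈ S, p e = 1 := by
    intro e he
    have n1 : e ≠ a := fun h => ha (h ▸ he)
    have n2 : e ≠ b := fun h => hb (h ▸ he)
    have n3 : e ≠ c := fun h => hc (h ▸ he)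
    have n4 : e ≠ d := fun h => hd (h ▸ he)
    have n5 : e ≠ a' := fun h => ha's (h ▸ he)
    rw [pe]
    simp [vec, dl, he, n1, n2, n3, n4, n5]
  have pa : p a = 1 / 4 := by
    rw [pe]; simp [vec, dl, ha, hab, hac, had, haa]
  have pa' : p a' = 1 / 4 := by
    rw [pe]; simp [vec, dl, ha's, ha'b, ha'c, ha'd, Ne.symm haa]
  have pb : p b = 1 / 2 := by
    rw [pe]; simp [vec, dl, hb, hab.symm, hbc, hbd, ha'b.symm]
  have pc : p c = 1 / 2 := by
    rw [pe]; simp [vec, dl, hc, hac.symm, hbc.symm, hcd, ha'c.symm]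
  have pd : p d = 1 / 2 := by
    rw [pe]; simp [vec, dl, hd, had.symm, hbd.symm, hcd.symm, ha'd.symm]
  have A1 : Ant N S a b c d := by
    refine ant_of_weights hr hpN p1 hab hac had hbc hbd hcd ha hb hc hd ?_ ?_ ?_ ?_ ?_ ?_ ?_ ?_ <;>
      simp only [pa, pb, pc, pd] <;> norm_num
  obtain ⟨s1, s2, s3, s4, s5⟩ := shows_of_ant hC hN h A1
  obtain ⟨z, hz⟩ := nonloop hr hpN p1 ha's (by rw [pa']; norm_num)
  have hparN : ¬ rr N S a a' := fun hh => hpar (rr_mono hC hN hh)
  have t1 : rr N S a' c := by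
    rcases rr_nt s1 a' hz with h | h
    · exact absurd h hparN
    · exact rr_symm h
  have t3 : rr N S a' d := by
    rcases rr_nt s3 a' hz with h | h
    · exact absurd h hparN
    · exact rr_symm h
  refine ⟨ha', a2, N, hN, t1, s2, t3, s4, ?_⟩
  rintro ⟨k1, k2⟩
  rcases rr_nt k1 a s1 with h | h
  · exact hparN (rr_symm h)
  · exact s5 ⟨rr_symm h, k2⟩

/-! ### changing an element of `S` -/

/-- the point used for the exchange of `s` and `s'` -/
noncomputable def pt (S' : Finset E) (s s' a b c d : E) : E → ℝ :=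
  fun e => vec S' e + (dl s e + dl s' e) / 2 + (dl a e + dl b e + dl c e + dl d e) / 2

omit hC in
theorem pt_comm (S' : Finset E) (s s' a b c d : E) : pt S' s s' a b c d = pt S' s' s a b c d := by
  funext e
  unfold pt
  ring

theorem cell_pt {N : Matroid E} (hN : N ∈ C) {S' : Finset E} {s s' a b c d : E}
    (hs : s ∉ S') (hs' : s' ∉ S') (hss : s ≠ s')
    (ha : a ∉ S') (hb : b ∉ S') (hc : c ∉ S') (hd : d ∉ S')
    (hab : a ≠ b) (hac : a ≠ c) (had : a ≠ d) (hbc : b ≠ c) (hbd : b ≠ d) (hcd : c ≠ d)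
    (has : a ≠ s) (hbs : b ≠ s) (hcs : c ≠ s) (hds : d ≠ s)
    (has' : a ≠ s') (hbs' : b ≠ s') (hcs' : c ≠ s') (hds' : d ≠ s')
    (hcol : ∀ B : Finset E, M.IsBase (B : Set E) → (B ∩ {a, b, c, d}).card ≤ 2)
    (hr : ∀ B : Finset E, N.IsBase (B : Set E) → B.card = S'.card + 3)
    (hx : pt S' s s' a b c d ∈ polytope N) :
    (fun e => vec (insert s S') e + (dl a e + dl b e + dl c e + dl d e) / 2) ∈ polytope N := by
  classical
  obtain ⟨ι, _, w, B, R⟩ := exists_rep hx
  set P : Finset E := {a, b, c, d} with hP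
  have hPm : ∀ e, e ∈ P ↔ e = a ∨ e = b ∨ e = c ∨ e = d := by
    intro e
    simp [hP]
  have v1 : ∀ e ∈ S', pt S' s s' a b c d e = 1 := by
    intro e he
    have n1 : e ≠ a := fun h => ha (h ▸ he)
    have n2 : e ≠ b := fun h => hb (h ▸ he)
    have n3 : e ≠ c := fun h => hc (h ▸ he)
    have n4 : e ≠ d := fun h => hd (h ▸ he)
    have n5 : e ≠ s := fun h => hs (h ▸ he)
    have n6 : e ≠ s' := fun h => hs' (h ▸ he)
    simp [pt, vec, dl, he, n1, n2, n3, n4, n5, n6]
  have v0 : ∀ e, e ∉ S' → e ≠ s → e ≠ s' → e ∉ P → pt S' s s' a b c d e = 0 := by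
    intro e he h1 h2 h3
    rw [hPm] at h3
    push Not at h3
    simp [pt, vec, dl, he, h1, h2, h3.1, h3.2.1, h3.2.2.1, h3.2.2.2]
  have vs : pt S' s s' a b c d s = 1 / 2 := by
    simp [pt, vec, dl, hs, hss, has.symm, hbs.symm, hcs.symm, hds.symm]
  have va : pt S' s s' a b c d a = 1 / 2 := by
    simp [pt, vec, dl, ha, hab, hac, had, has, has']
  have vb : pt S' s s' a b c d b = 1 / 2 := by
    simp [pt, vec, dl, hb, hab.symm, hbc, hbd, hbs, hbs']
  have vc : pt S' s s' a b c d c = 1 / 2 := by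
    simp [pt, vec, dl, hc, hac.symm, hbc.symm, hcd, hcs, hcs']
  have vd : pt S' s s' a b c d d = 1 / 2 := by
    simp [pt, vec, dl, hd, had.symm, hbd.symm, hcd.symm, hds, hds']
  have sumP : ∑ e ∈ P, pt S' s s' a b c d e = 2 := by
    rw [hP, Finset.sum_insert (by simp [hab, hac, had]), Finset.sum_insert (by simp [hbc, hbd]),
      Finset.sum_insert (by simp [hcd]), Finset.sum_singleton, va, vb, vc, vd]
    norm_num
  have le2 : ∀ i, (B i ∩ P).card ≤ 2 := fun i => hcol _ (hC.bases N hN _ (R.base i))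
  have eq2 : ∀ i, 0 < w i → (B i ∩ P).card = 2 := by
    intro i hi
    have h1 := R.sum_set P
    rw [sumP] at h1
    have h2 : ∑ j, w j * (2 - ((B j ∩ P).card : ℝ)) = 0 := by
      simp only [mul_sub, Finset.sum_sub_distrib, ← h1, ← Finset.sum_mul, R.sum]
      norm_num
    have h3 : ∀ j ∈ (univ : Finset ι), 0 ≤ w j * (2 - ((B j ∩ P).card : ℝ)) := by
      intro j _
      refine mul_nonneg (R.nonneg j) ?_
      have : ((B j ∩ P).card : ℝ) ≤ 2 := by exact_mod_cast le2 j
      linarith
    have h4 := (Finset.sum_eq_zero_iff_of_nonneg h3).1 h2 i (mem_univ i)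
    have h5 : (2 : ℝ) - ((B i ∩ P).card : ℝ) = 0 := by
      rcases mul_eq_zero.1 h4 with h | h
      · exact absurd h hi.ne'
      · exact h
    have h6 : ((B i ∩ P).card : ℝ) = 2 := by linarith
    exact_mod_cast h6
  have hS : ∀ i, 0 < w i → S' ⊆ B i := fun i hi e he => R.one (v1 e he) i hi
  have hout : ∀ i, 0 < w i → ∀ e ∈ B i, e ∉ S' → e ∉ P → e = s ∨ e = s' := by
    intro i hi e he h1 h2
    by_contra hcon
    push Not at hcon
    exact R.zero (v0 e h1 hcon.1 hcon.2 h2) i hi he
  have hone : ∀ i, 0 < w i → (B i ∩ {s, s'}).card = 1 := by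
    intro i hi
    have h1 : B i = S' ∪ ((B i ∩ P) ∪ (B i ∩ {s, s'})) := by
      ext e
      simp only [Finset.mem_union, Finset.mem_inter, Finset.mem_insert, Finset.mem_singleton]
      constructor
      · intro he
        by_cases k1 : e ∈ S'
        · exact Or.inl k1
        · by_cases k2 : e ∈ P
          · exact Or.inr (Or.inl ⟨he, k2⟩)
          · exact Or.inr (Or.inr ⟨he, hout i hi e he k1 k2⟩)
      · rintro (h | h | h)
        · exact hS i hi h
        · exact h.1
        · exact h.1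
    have d1 : Disjoint (B i ∩ P) (B i ∩ {s, s'}) := by
      rw [Finset.disjoint_left]
      intro e h1 h2
      simp only [Finset.mem_inter, hPm, Finset.mem_insert, Finset.mem_singleton] at h1 h2
      rcases h1.2 with rfl | rfl | rfl | rfl <;> rcases h2.2 with h | h
      · exact has h
      · exact has' h
      · exact hbs h
      · exact hbs' h
      · exact hcs h
      · exact hcs' h
      · exact hds h
      · exact hds' h
    have d2 : Disjoint S' ((B i ∩ P) ∪ (B i ∩ {s, s'})) := by
      rw [Finset.disjoint_left]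
      intro e g1 g2
      simp only [Finset.mem_union, Finset.mem_inter, hPm, Finset.mem_insert,
        Finset.mem_singleton] at g2
      rcases g2 with h | h
      · rcases h.2 with rfl | rfl | rfl | rfl
        · exact ha g1
        · exact hb g1
        · exact hc g1
        · exact hd g1
      · rcases h.2 with rfl | rfl
        · exact hs g1
        · exact hs' g1
    have h2 := hr _ (R.base i)
    have h3 := congrArg Finset.card h1
    rw [Finset.card_union_of_disjoint d2, Finset.card_union_of_disjoint d1, eq2 i hi] at h3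
    omega
  have hxor : ∀ i, 0 < w i → (s ∈ B i ∧ s' ∉ B i) ∨ (s ∉ B i ∧ s' ∈ B i) := by
    intro i hi
    obtain ⟨f, hf⟩ := Finset.card_eq_one.1 (hone i hi)
    by_cases k1 : s ∈ B i <;> by_cases k2 : s' ∈ B i
    · exfalso
      have m1 : s ∈ B i ∩ {s, s'} := by simp [k1]
      have m2 : s' ∈ B i ∩ {s, s'} := by simp [k2]
      rw [hf, Finset.mem_singleton] at m1 m2
      exact hss (m1.trans m2.symm)
    · exact Or.inl ⟨k1, k2⟩
    · exact Or.inr ⟨k1, k2⟩
    · exfalso
      have m1 : f ∈ B i ∩ {s, s'} := by rw [hf]; simp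
      simp only [Finset.mem_inter, Finset.mem_insert, Finset.mem_singleton] at m1
      rcases m1.2 with h | h
      · exact k1 (h ▸ m1.1)
      · exact k2 (h ▸ m1.1)
  obtain ⟨j, hj, hsj⟩ := R.pos (e := s) (by rw [vs]; norm_num)
  have hj' : s' ∉ B j := by
    rcases hxor j hj with h | h
    · exact h.2
    · exact absurd hsj h.1
  set B' : ι → Finset E := fun i => if 0 < w i ∧ s' ∈ B i then insert s ((B i).erase s') else B i
    with hB'
  have hB'b : ∀ i, N.IsBase (B' i : Set E) := by
    intro i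
    simp only [hB']
    split_ifs with h
    · obtain ⟨hi, hsi⟩ := h
      obtain ⟨f, hf1, hf2, hf3⟩ := exch (R.base i) (R.base j) hsi hj'
      have hfS : f ∉ S' := fun h => hf2 (hS i hi h)
      by_cases hfP : f ∈ P
      · exfalso
        have h1 := hcol _ (hC.bases N hN _ hf3)
        have h2 : insert f (B i ∩ P) ⊆ insert f ((B i).erase s') ∩ P := by
          intro e he
          rw [Finset.mem_insert] at he
          rw [Finset.mem_inter, Finset.mem_insert, Finset.mem_erase]
          rcases he with rfl | he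
          · exact ⟨Or.inl rfl, hfP⟩
          · rw [Finset.mem_inter] at he
            refine ⟨Or.inr ⟨?_, he.1⟩, he.2⟩
            intro hes
            have := he.2
            rw [hPm, hes] at this
            rcases this with h | h | h | h
            · exact has' h.symm
            · exact hbs' h.symm
            · exact hcs' h.symm
            · exact hds' h.symm
        have h3 := Finset.card_le_card h2
        rw [Finset.card_insert_of_notMem (fun h => hf2 (Finset.mem_inter.1 h).1), eq2 i hi] at h3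
        omega
      · have h1 := hout j hj f hf1 hfS hfP
        rcases h1 with rfl | rfl
        · exact hf3
        · exact absurd hf1 hj'
    · exact R.base i
  have R' : Rep N (fun e => vec (insert s S') e + (dl a e + dl b e + dl c e + dl d e) / 2) ι w
      B' := by
    refine ⟨R.nonneg, R.sum, hB'b, ?_⟩
    intro e
    have hsum : ∀ u : ι → ℝ, (∀ i, 0 < w i → vec (B' i) e = u i) →
        ∑ i, w i * vec (B' i) e = ∑ i, w i * u i := by
      intro u hu
      refine Finset.sum_congr rfl fun i _ => ?_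
      rcases (R.nonneg i).eq_or_lt with h0 | h0
      · rw [← h0, zero_mul, zero_mul]
      · rw [hu i h0]
    by_cases e1 : e = s
    · subst e1
      rw [hsum (fun _ => 1)]
      · simp only [mul_one, R.sum]
        simp [vec, dl, has.symm, hbs.symm, hcs.symm, hds.symm]
      · intro i hi
        simp only [hB', vec]
        by_cases k : s' ∈ B i
        · simp [hi, k]
        · rcases hxor i hi with h | h
          · simp [k, h.1]
          · exact absurd h.2 k
    by_cases e2 : e = s'
    · subst e2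
      rw [hsum (fun _ => 0)]
      · simp [vec, dl, hs', Ne.symm hss, has'.symm, hbs'.symm, hcs'.symm, hds'.symm]
      · intro i hi
        simp only [hB', vec]
        by_cases k : e ∈ B i
        · simp [hi, k, Ne.symm hss]
        · simp [k]
    · rw [hsum (fun i => vec (B i) e)]
      · rw [R.val e]
        simp [pt, vec, dl, e1, e2]
      · intro i hi
        simp only [hB', vec]
        by_cases k : s' ∈ B i
        · simp [hi, k, e1, e2]
        · simp [k]
  exact R'.mem

theorem rr_swap {N : Matroid E} (hN : N ∈ C) {S' : Finset E} {s s' u v p q : E} {P : Finset E}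
    (hs : s ∉ S') (hs' : s' ∉ S') (hss : s ≠ s') (hsP : s ∉ P)
    (hcol : ∀ B : Finset E, M.IsBase (B : Set E) → (B ∩ P).card ≤ 2)
    (hu : u ∈ P) (hv : v ∈ P) (hp : p ∈ P) (hq : q ∈ P) (hs'P : s' ∉ P)
    (h1 : rr N (insert s S') u v) (h2 : rr N (insert s' S') p q) :
    rr N (insert s' S') u v := by
  have hus : u ∉ S' := fun h => h1.2.1 (Finset.mem_insert_of_mem h)
  have hvs : v ∉ S' := fun h => h1.2.2.1 (Finset.mem_insert_of_mem h)
  have us : u ≠ s := fun h => hsP (h ▸ hu)
  have vs : v ≠ s := fun h => hsP (h ▸ hv)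
  have us' : u ≠ s' := fun h => hs'P (h ▸ hu)
  have vs' : v ≠ s' := fun h => hs'P (h ▸ hv)
  have ps : p ≠ s := fun h => hsP (h ▸ hp)
  have qs : q ≠ s := fun h => hsP (h ▸ hq)
  obtain ⟨f, hf1, hf2, hf3⟩ := exch h1.2.2.2 h2.2.2.2 (e := s) (by simp)
    (by simp [ps.symm, qs.symm, hss, hs])
  refine ⟨h1.1, by simp [us', hus], by simp [vs', hvs], ?_⟩
  have he : (insert u (insert v (insert s S'))).erase s = insert u (insert v S') := by
    ext e
    simp only [Finset.mem_erase, Finset.mem_insert]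
    constructor
    · rintro ⟨k1, k2⟩
      tauto
    · rintro (rfl | rfl | k)
      · exact ⟨us, Or.inl rfl⟩
      · exact ⟨vs, Or.inr (Or.inl rfl)⟩
      · exact ⟨fun h => hs (h ▸ k), Or.inr (Or.inr (Or.inr k))⟩
  rw [he] at hf3
  have hfS : f ∉ S' := fun h => hf2 (by simp [h])
  have hfu : f ≠ u := fun h => hf2 (by simp [h])
  have hfv : f ≠ v := fun h => hf2 (by simp [h])
  by_cases hfs : f = s'
  · have : insert u (insert v (insert s' S')) = insert f (insert u (insert v S')) := by
      rw [hfs]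
      ext e
      simp only [Finset.mem_insert]
      tauto
    rw [this]
    exact hf3
  · exfalso
    have hfP : f ∈ P := by
      simp only [Finset.mem_insert, hfS, or_false, hfs] at hf1
      rcases hf1 with rfl | rfl
      · exact hp
      · exact hq
    have h3 := hcol _ (hC.bases N hN _ hf3)
    have h4 : {f, u, v} ⊆ insert f (insert u (insert v S')) ∩ P := by
      intro e he
      simp only [Finset.mem_insert, Finset.mem_singleton] at he
      rw [Finset.mem_inter]
      rcases he with rfl | rfl | rfl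
      · exact ⟨by simp, hfP⟩
      · exact ⟨by simp, hu⟩
      · exact ⟨by simp, hv⟩
    have h5 := Finset.card_le_card h4
    rw [Finset.card_insert_of_notMem (by simp [hfu, hfv]),
      Finset.card_insert_of_notMem (by simp [h1.1]), Finset.card_singleton] at h5
    omega

theorem stepB {S' : Finset E} {s s' a b c d : E} (hs : s ∉ S') (hs' : s' ∉ S') (hss : s ≠ s')
    (h : Typ M C (insert s S') a b c d) (k1 : rr M (insert s' S') a b)
    (k2 : rr M (insert s' S') c d)
    (hcol : ∀ B : Finset E, M.IsBase (B : Set E) → (B ∩ {a, b, c, d}).card ≤ 2) :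
    Typ M C (insert s' S') a b c d := by
  have h' := h
  obtain ⟨a1, a2, N1, hN1, a3, a4, a5, a6, -⟩ := h'
  have hab : a ≠ b := a1.1
  have hac : a ≠ c := a3.1
  have had : a ≠ d := a5.1
  have hbc : b ≠ c := a6.1
  have hbd : b ≠ d := a4.1
  have hcd : c ≠ d := a2.1
  have aS := a1.2.1
  have bS := a1.2.2.1
  have cS := a2.2.1
  have dS := a2.2.2.1
  have aS' := k1.2.1
  have bS' := k1.2.2.1
  have cS' := k2.2.1
  have dS' := k2.2.2.1
  simp only [Finset.mem_insert, not_or] at aS bS cS dS aS' bS' cS' dS'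
  have hx : pt S' s s' a b c d ∈ polytope M := by
    have : pt S' s s' a b c d = mid (insert a (insert b (insert s S')))
        (insert c (insert d (insert s' S'))) := by
      funext e
      unfold mid pt
      rw [vec_pair hab (by simp [aS]) (by simp [bS]), vec_pair hcd (by simp [cS']) (by simp [dS']),
        vec_one hs, vec_one hs']
      ring
    rw [this]
    exact mid_mem a1.2.2.2 k2.2.2.2
  obtain ⟨N, hN, hxN⟩ := exists_cell hC hx
  have hr0 := card_base hC hN a1
  have hr0' := card_base hC hN k1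
  have hr : ∀ B : Finset E, N.IsBase (B : Set E) → B.card = S'.card + 3 := by
    intro B hB
    rw [hr0 B hB, Finset.card_insert_of_notMem hs]
  have z1 := cell_pt hC hN hs hs' hss aS.2 bS.2 cS.2 dS.2 hab hac had hbc hbd hcd aS.1 bS.1 cS.1
    dS.1 aS'.1 bS'.1 cS'.1 dS'.1 hcol hr hxN
  rw [pt_comm] at hxN
  have z2 := cell_pt hC hN hs' hs (Ne.symm hss) aS.2 bS.2 cS.2 dS.2 hab hac had hbc hbd hcd aS'.1
    bS'.1 cS'.1 dS'.1 aS.1 bS.1 cS.1 dS.1 hcol hr hxN
  have ants : ∀ T : Finset E, a ∉ T → b ∉ T → c ∉ T → d ∉ T →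
      (∀ B : Finset E, N.IsBase (B : Set E) → B.card = T.card + 2) →
      (fun e => vec T e + (dl a e + dl b e + dl c e + dl d e) / 2) ∈ polytope N →
      Ant N T a b c d := by
    intro T aT bT cT dT hrT hT
    have t1 : ∀ e ∈ T, (fun e => vec T e + (dl a e + dl b e + dl c e + dl d e) / 2) e = 1 := by
      intro e he
      have n1 : e ≠ a := fun h => aT (h ▸ he)
      have n2 : e ≠ b := fun h => bT (h ▸ he)
      have n3 : e ≠ c := fun h => cT (h ▸ he)
      have n4 : e ≠ d := fun h => dT (h ▸ he)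
      simp [vec, dl, he, n1, n2, n3, n4]
    have ta : (fun e => vec T e + (dl a e + dl b e + dl c e + dl d e) / 2) a = 1 / 2 := by
      simp [vec, dl, aT, hab, hac, had]
    have tb : (fun e => vec T e + (dl a e + dl b e + dl c e + dl d e) / 2) b = 1 / 2 := by
      simp [vec, dl, bT, hab.symm, hbc, hbd]
    have tc : (fun e => vec T e + (dl a e + dl b e + dl c e + dl d e) / 2) c = 1 / 2 := by
      simp [vec, dl, cT, hac.symm, hbc.symm, hcd]
    have td : (fun e => vec T e + (dl a e + dl b e + dl c e + dl d e) / 2) d = 1 / 2 := by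
      simp [vec, dl, dT, had.symm, hbd.symm, hcd.symm]
    refine ant_of_weights hrT hT t1 hab hac had hbc hbd hcd aT bT cT dT ?_ ?_ ?_ ?_ ?_ ?_ ?_ ?_ <;>
      simp only [ta, tb, tc, td] <;> norm_num
  have A1 := ants (insert s S') a1.2.1 a1.2.2.1 a2.2.1 a2.2.2.1 hr0 z1
  have A2 := ants (insert s' S') k1.2.1 k1.2.2.1 k2.2.1 k2.2.2.1 hr0' z2
  obtain ⟨s1, s2, s3, s4, s5⟩ := shows_of_ant hC hN h A1
  set P : Finset E := {a, b, c, d} with hP
  have pa : a ∈ P := by simp [hP]
  have pb : b ∈ P := by simp [hP]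
  have pc : c ∈ P := by simp [hP]
  have pd : d ∈ P := by simp [hP]
  have hsP : s ∉ P := by
    simp only [hP, Finset.mem_insert, Finset.mem_singleton, not_or]
    exact ⟨Ne.symm aS.1, Ne.symm bS.1, Ne.symm cS.1, Ne.symm dS.1⟩
  have hs'P : s' ∉ P := by
    simp only [hP, Finset.mem_insert, Finset.mem_singleton, not_or]
    exact ⟨Ne.symm aS'.1, Ne.symm bS'.1, Ne.symm cS'.1, Ne.symm dS'.1⟩
  obtain ⟨p, q, hp, hq, hpq⟩ : ∃ p q, p ∈ P ∧ q ∈ P ∧ rr N (insert s' S') p q := by
    rcases A2 with k | k | k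
    · exact ⟨a, b, pa, pb, k.1⟩
    · exact ⟨a, c, pa, pc, k.1⟩
    · exact ⟨a, d, pa, pd, k.1⟩
  have go : ∀ u v, u ∈ P → v ∈ P → rr N (insert s S') u v → rr N (insert s' S') u v :=
    fun u v hu hv huv => rr_swap hC hN hs hs' hss hsP hcol hu hv hp hq hs'P huv hpq
  have back : ∀ u v, u ∈ P → v ∈ P → rr N (insert s' S') u v → rr N (insert s S') u v :=
    fun u v hu hv huv => rr_swap hC hN hs' hs (Ne.symm hss) hs'P hcol hu hv pa pc hsP huv s1
  exact ⟨k1, k2, N, hN, go _ _ pa pc s1, go _ _ pb pd s2, go _ _ pa pd s3, go _ _ pb pc s4,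
    fun k => s5 ⟨back _ _ pa pb k.1, back _ _ pc pd k.2⟩⟩

end sub

end Pool.Agent.Q295.PGI
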