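import Pool.Agent.Q295.PGI.Core

/-!
# Types of octahedra in a matroid subdivision
-/

set_option autoImplicit false
set_option linter.unusedSectionVars false

namespace Pool.Agent.Q295.PGI

open Finset

variable {E : Type} [DecidableEq E]

/-- indicator of one element -/
noncomputable def dl (a e : E) : ℝ := if e = a then 1 else 0

theorem vec_pair {S : Finset E} {a b : E} (hab : a ≠ b) (ha : a ∉ S) (hb : b ∉ S) (e : E) :
    vec (insert a (insert b S)) e = vec S e + dl a e + dl b e := by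
  unfold vec dl
  by_cases h1 : e = a
  · subst h1
    simp [ha, hab]
  · by_cases h2 : e = b
    · subst h2
      simp [hb, Ne.symm hab]
    · simp [h1, h2]

theorem vec_one {S : Finset E} {a : E} (ha : a ∉ S) (e : E) :
    vec (insert a S) e = vec S e + dl a e := by
  unfold vec dl
  by_cases h1 : e = a
  · subst h1
    simp [ha]
  · simp [h1]

theorem mid_pair {S : Finset E} {a b c d : E} (hab : a ≠ b) (hcd : c ≠ d)
    (ha : a ∉ S) (hb : b ∉ S) (hc : c ∉ S) (hd : d ∉ S) (e : E) :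
    mid (insert a (insert b S)) (insert c (insert d S)) e =
      vec S e + (dl a e + dl b e + dl c e + dl d e) / 2 := by
  unfold mid
  rw [vec_pair hab ha hb, vec_pair hcd hc hd]
  ring

section sub

variable {M : Matroid E} {C : Set (Matroid E)} (hC : IsMatroidSubdivision M C)

include hC

theorem exists_cell {x : E → ℝ} (hx : x ∈ polytope M) : ∃ N ∈ C, x ∈ polytope N := by
  rw [← hC.cover] at hx
  simpa using hx

theorem rr_mono {N : Matroid E} (hN : N ∈ C) {S : Finset E} {u v : E} (h : rr N S u v) :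
    rr M S u v :=
  ⟨h.1, h.2.1, h.2.2.1, hC.bases N hN _ h.2.2.2⟩

theorem card_base {N : Matroid E} (hN : N ∈ C) {S : Finset E} {u v : E} (h : rr M S u v)
    (B : Finset E) (hB : N.IsBase (B : Set E)) : B.card = S.card + 2 := by
  rw [card_eq (hC.bases N hN _ hB) h.2.2.2, Finset.card_insert_of_notMem,
    Finset.card_insert_of_notMem h.2.2.1]
  simp only [Finset.mem_insert, not_or]
  exact ⟨h.1, h.2.1⟩

theorem anti {N N' : Matroid E} (hN : N ∈ C) (hN' : N' ∈ C) {S : Finset E} {a b c d : E}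
    (h1 : rr N S a c) (h2 : rr N S b d) (h3 : rr N' S a b) (h4 : rr N' S c d) :
    rr N' S a c ∧ rr N' S b d := by
  have hm : mid (insert a (insert c S)) (insert b (insert d S)) ∈ polytope N' := by
    have : mid (insert a (insert c S)) (insert b (insert d S)) =
        mid (insert a (insert b S)) (insert c (insert d S)) := by
      funext e
      rw [mid_pair h1.1 h2.1 h1.2.1 h1.2.2.1 h2.2.1 h2.2.2.1,
        mid_pair h3.1 h4.1 h3.2.1 h3.2.2.1 h4.2.1 h4.2.2.1]
      ring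
    rw [this]
    exact mid_mem h3.2.2.2 h4.2.2.2
  obtain ⟨h5, h6⟩ := face_mid hC hN hN' h1.2.2.2 h2.2.2.2 hm
  exact ⟨⟨h1.1, h1.2.1, h1.2.2.1, h5⟩, ⟨h2.1, h2.2.1, h2.2.2.1, h6⟩⟩

end sub

/-- the cell contains the centre of the octahedron -/
def Ant (N : Matroid E) (S : Finset E) (a b c d : E) : Prop :=
  (rr N S a b ∧ rr N S c d) ∨ (rr N S a c ∧ rr N S b d) ∨ (rr N S a d ∧ rr N S b c)

/-- the cell shows that the octahedron has type `ab|cd` -/
def Shows (N : Matroid E) (S : Finset E) (a b c d : E) : Prop :=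
  rr N S a c ∧ rr N S b d ∧ rr N S a d ∧ rr N S b c ∧ ¬ (rr N S a b ∧ rr N S c d)

/-- the octahedron has type `ab|cd` -/
def Typ (M : Matroid E) (C : Set (Matroid E)) (S : Finset E) (a b c d : E) : Prop :=
  rr M S a b ∧ rr M S c d ∧ ∃ N ∈ C, Shows N S a b c d

section sub

variable {M : Matroid E} {C : Set (Matroid E)} (hC : IsMatroidSubdivision M C)

include hC

theorem shows_of_ant {N : Matroid E} (hN : N ∈ C) {S : Finset E} {a b c d : E}
    (hT : Typ M C S a b c d) (hA : Ant N S a b c d) : Shows N S a b c d := by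
  obtain ⟨-, -, N0, hN0, h1, h2, h3, h4, h5⟩ := hT
  have k1 : rr N S a c ∧ rr N S b d := by
    rcases hA with h | h | h
    · exact anti hC hN0 hN h1 h2 h.1 h.2
    · exact h
    · have := anti hC hN0 hN h1 (rr_symm h2) h.1 (rr_symm h.2)
      exact ⟨this.1, rr_symm this.2⟩
  have k2 : rr N S a d ∧ rr N S b c := by
    rcases hA with h | h | h
    · exact anti hC hN0 hN h3 h4 h.1 (rr_symm h.2)
    · have := anti hC hN0 hN h3 (rr_symm h4) h.1 (rr_symm h.2)
      exact ⟨this.1, rr_symm this.2⟩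
    · exact h
  refine ⟨k1.1, k1.2, k2.1, k2.2, fun h => h5 ?_⟩
  exact anti hC hN hN0 h.1 h.2 h1 h2

theorem typ_excl {S : Finset E} {a b c d : E} (hT : Typ M C S a b c d) :
    ¬ Typ M C S a c b d := by
  intro hT'
  obtain ⟨-, -, N1, hN1, h⟩ := hT'
  have h1 := shows_of_ant hC hN1 hT (Or.inl ⟨h.1, h.2.1⟩)
  exact h.2.2.2.2 ⟨h1.1, h1.2.1⟩

end sub

theorem Typ.symm12 {M : Matroid E} {C : Set (Matroid E)} {S : Finset E} {a b c d : E}
    (h : Typ M C S a b c d) : Typ M C S b a c d := by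
  obtain ⟨h1, h2, N, hN, k1, k2, k3, k4, k5⟩ := h
  exact ⟨rr_symm h1, h2, N, hN, k4, k3, k2, k1, fun h => k5 ⟨rr_symm h.1, h.2⟩⟩

theorem Typ.symm34 {M : Matroid E} {C : Set (Matroid E)} {S : Finset E} {a b c d : E}
    (h : Typ M C S a b c d) : Typ M C S a b d c := by
  obtain ⟨h1, h2, N, hN, k1, k2, k3, k4, k5⟩ := h
  exact ⟨h1, rr_symm h2, N, hN, k3, k4, k1, k2, fun h => k5 ⟨h.1, rr_symm h.2⟩⟩

theorem Typ.swap {M : Matroid E} {C : Set (Matroid E)} {S : Finset E} {a b c d : E}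
    (h : Typ M C S a b c d) : Typ M C S c d a b := by
  obtain ⟨h1, h2, N, hN, k1, k2, k3, k4, k5⟩ := h
  exact ⟨h2, h1, N, hN, rr_symm k1, rr_symm k2, rr_symm k4, rr_symm k3,
    fun h => k5 ⟨h.2, h.1⟩⟩

/-! ### centres and weights -/

theorem four_prop (ab ac ad bc bd cd : Prop)
    (h1 : ab → ac ∨ bc) (h2 : ab → ad ∨ bd) (h3 : ac → ab ∨ bc) (h4 : ac → ad ∨ cd)
    (h5 : ad → ab ∨ bd) (h6 : ad → ac ∨ cd) (h7 : bc → ab ∨ ac) (h8 : bc → bd ∨ cd)
    (h9 : bd → ab ∨ ad) (h10 : bd → bc ∨ cd) (h11 : cd → ac ∨ ad) (h12 : cd → bc ∨ bd)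
    (n1 : ab ∨ ac ∨ bc) (n2 : ab ∨ ad ∨ bd) (n3 : ac ∨ ad ∨ cd) (n4 : bc ∨ bd ∨ cd) :
    (ab ∧ cd) ∨ (ac ∧ bd) ∨ (ad ∧ bc) := by
  by_cases q1 : ab <;> by_cases q2 : ac <;> by_cases q3 : ad <;> by_cases q4 : bc <;>
    by_cases q5 : bd <;> by_cases q6 : cd <;> simp_all

theorem ant_of_weights {N : Matroid E} {S : Finset E} {x : E → ℝ}
    (hr : ∀ B : Finset E, N.IsBase (B : Set E) → B.card = S.card + 2)
    (hx : x ∈ polytope N) (h1 : ∀ e ∈ S, x e = 1) {a b c d : E}
    (hab : a ≠ b) (hac : a ≠ c) (had : a ≠ d) (hbc : b ≠ c) (hbd : b ≠ d) (hcd : c ≠ d)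
    (ha : a ∉ S) (hb : b ∉ S) (hc : c ∉ S) (hd : d ∉ S)
    (pa : 0 < x a) (pb : 0 < x b) (pc : 0 < x c) (pd : 0 < x d)
    (w1 : 1 < x a + x b + x c) (w2 : 1 < x a + x b + x d) (w3 : 1 < x a + x c + x d)
    (w4 : 1 < x b + x c + x d) : Ant N S a b c d := by
  have key : ∀ p q t : E, p ≠ q → p ≠ t → q ≠ t → p ∉ S → q ∉ S → t ∉ S →
      1 < x p + x q + x t → rr N S p q ∨ rr N S p t ∨ rr N S q t := by
    intro p q t hpq hpt hqt hp hq ht hw
    by_contra hcon
    push Not at hcon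
    obtain ⟨c1, c2, c3⟩ := hcon
    have := weight_le hr hx h1 (P := {p, q, t}) (by simp [hp, hq, ht]) (by
      intro u hu v hv huv
      simp only [Finset.mem_insert, Finset.mem_singleton] at hu hv
      rcases hu with rfl | rfl | rfl <;> rcases hv with rfl | rfl | rfl
      · exact huv.1 rfl
      · exact c1 huv
      · exact c2 huv
      · exact c1 (rr_symm huv)
      · exact huv.1 rfl
      · exact c3 huv
      · exact c2 (rr_symm huv)
      · exact c3 (rr_symm huv)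
      · exact huv.1 rfl)
    rw [Finset.sum_insert (by simp [hpq, hpt]), Finset.sum_insert (by simp [hqt]),
      Finset.sum_singleton] at this
    linarith
  obtain ⟨a', ha'⟩ := nonloop hr hx h1 ha pa
  obtain ⟨b', hb'⟩ := nonloop hr hx h1 hb pb
  obtain ⟨c', hc'⟩ := nonloop hr hx h1 hc pc
  obtain ⟨d', hd'⟩ := nonloop hr hx h1 hd pd
  have nt : ∀ u v w z, rr N S w z → rr N S u v → rr N S u w ∨ rr N S v w :=
    fun u v w z hw h => rr_nt h w hw
  have sy : ∀ u v, rr N S u v → rr N S v u := fun u v => rr_symm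
  refine four_prop _ _ _ _ _ _ ?_ ?_ ?_ ?_ ?_ ?_ ?_ ?_ ?_ ?_ ?_ ?_
    (key a b c hab hac hbc ha hb hc w1) (key a b d hab had hbd ha hb hd w2)
    (key a c d hac had hcd ha hc hd w3) (key b c d hbc hbd hcd hb hc hd w4)
  · exact fun h => (nt _ _ _ _ hc' h)
  · exact fun h => (nt _ _ _ _ hd' h)
  · exact fun h => (nt _ _ _ _ hb' h).imp_right (sy _ _)
  · exact fun h => (nt _ _ _ _ hd' h)
  · exact fun h => (nt _ _ _ _ hb' h).imp_right (sy _ _)
  · exact fun h => (nt _ _ _ _ hc' h).imp_right (sy _ _)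
  · exact fun h => (nt _ _ _ _ ha' h).imp (sy _ _) (sy _ _)
  · exact fun h => (nt _ _ _ _ hd' h)
  · exact fun h => (nt _ _ _ _ ha' h).imp (sy _ _) (sy _ _)
  · exact fun h => (nt _ _ _ _ hc' h).imp_right (sy _ _)
  · exact fun h => (nt _ _ _ _ ha' h).imp (sy _ _) (sy _ _)
  · exact fun h => (nt _ _ _ _ hb' h).imp (sy _ _) (sy _ _)

end Pool.Agent.Q295.PGI
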